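import Mathlib
import Pool.Agent.Work.MP_345ef2_flag.Main
import Pool.Agent.Work.MP_345ef2_gt.Lanner
import Pool.Agent.Work.MP_345ef2_gt_helper54.Vec

/-!
# Irreducible factors of the vertex groups of compact hyperbolic Coxeter polytopes (MP_345ef2_gt)

For a 2-face `K` let `cc K` be the number of its vertices `v` such that the two facets of `v` which
do not contain the face lie in one component of the Coxeter diagram of `v`.  Triangles have
`cc ≥ 2`, quadrangles `cc ≥ 1`.  With Nikulin's inequality: if all components of the diagrams of the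
vertices have at most `c` nodes then `n ≤ 4 c`.
-/

set_option autoImplicit false

namespace MP345

open Finset

variable {n : ℕ}

/-- leaving a set along a chain -/
theorem ir_exit {α : Type*} {r : α → α → Prop} {a b : α} (h : Relation.ReflTransGen r a b)
    {p : α → Prop} (ha : p a) (hb : ¬ p b) : ∃ x y, r x y ∧ p x ∧ ¬ p y := by
  induction h with
  | refl => exact absurd ha hb
  | @tail y z hy hyz ih =>
    by_cases hp : p y
    · exact ⟨y, z, hyz, hp, hb⟩
    · exact ih hp

namespace CoxData

variable (D : CoxData n)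

/-- one step in the diagram of `S` -/
def Stp (S : Finset D.ι) (i j : D.ι) : Prop := i ∈ S ∧ j ∈ S ∧ i ≠ j ∧ D.g i j ≠ 0

/-- `i` and `j` are joined in the diagram of `S` -/
def Cn (S : Finset D.ι) (i j : D.ι) : Prop := Relation.ReflTransGen (D.Stp S) i j

variable {D}

theorem Stp.symm {S : Finset D.ι} {i j : D.ι} (h : D.Stp S i j) : D.Stp S j i :=
  ⟨h.2.1, h.1, h.2.2.1.symm, by rw [D.symm]; exact h.2.2.2⟩

theorem Cn.symm {S : Finset D.ι} {i j : D.ι} (h : D.Cn S i j) : D.Cn S j i := by
  unfold Cn at h ⊢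
  induction h with
  | refl => exact Relation.ReflTransGen.refl
  | tail _ hyz ih => exact Relation.ReflTransGen.head (Stp.symm hyz) ih

theorem Cn.mono {S T : Finset D.ι} {i j : D.ι} (h : D.Cn S i j) (hST : S ⊆ T) : D.Cn T i j := by
  unfold Cn at h ⊢
  induction h with
  | refl => exact Relation.ReflTransGen.refl
  | tail _ hyz ih => exact Relation.ReflTransGen.tail ih ⟨hST hyz.1, hST hyz.2.1, hyz.2.2⟩

theorem Cn.trans {S : Finset D.ι} {i j k : D.ι} (h : D.Cn S i j) (h' : D.Cn S j k) : D.Cn S i k :=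
  Relation.ReflTransGen.trans h h'

theorem Stp.cn {S : Finset D.ι} {i j : D.ι} (h : D.Stp S i j) : D.Cn S i j :=
  Relation.ReflTransGen.single h

/-- a chain which does not reach `a` avoids it -/
theorem Cn.avoid {T : Finset D.ι} {b x a : D.ι} (h : D.Cn T b x) (ha : ¬ D.Cn T b a) :
    D.Cn (T.erase a) b x := by
  unfold Cn at h
  induction h with
  | refl => exact Relation.ReflTransGen.refl
  | @tail y z hy hyz ih =>
    have h1 : y ≠ a := fun e => ha (e ▸ hy)
    have h2 : z ≠ a := fun e => ha (e ▸ hy.tail hyz)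
    exact Relation.ReflTransGen.tail ih
      ⟨Finset.mem_erase.2 ⟨h1, hyz.1⟩, Finset.mem_erase.2 ⟨h2, hyz.2.1⟩, hyz.2.2⟩

variable (D)

theorem ir_bf_zero {A B : Finset D.ι} {c d : D.ι → ℝ} (hc : ∀ i, i ∉ A → c i = 0)
    (hd : ∀ i, i ∉ B → d i = 0) (h : ∀ i ∈ A, ∀ j ∈ B, D.g i j = 0) : bf D.g c d = 0 := by
  unfold bf
  refine Finset.sum_eq_zero fun i _ => Finset.sum_eq_zero fun j _ => ?_
  by_cases hi : i ∈ A
  · by_cases hj : j ∈ B
    · rw [h i hi j hj, mul_zero]
    · rw [hd j hj]; ring
  · rw [hc i hi]; ring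

theorem ir_pd_union {A B : Finset D.ι} (hA : PD D.g A) (hB : PD D.g B)
    (h : ∀ i ∈ A, ∀ j ∈ B, D.g i j = 0) (hd : Disjoint A B) : PD D.g (A ∪ B) := by
  classical
  intro c hc hc0
  set a : D.ι → ℝ := fun i => if i ∈ A then c i else 0 with ha
  set b : D.ι → ℝ := fun i => if i ∈ B then c i else 0 with hb
  have ha0 : ∀ i, i ∉ A → a i = 0 := fun i hi => by simp [ha, hi]
  have hb0 : ∀ i, i ∉ B → b i = 0 := fun i hi => by simp [hb, hi]
  have hcab : c = a + b := by
    funext i
    simp only [ha, hb, Pi.add_apply]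
    by_cases h1 : i ∈ A
    · have h2 : i ∉ B := Finset.disjoint_left.1 hd h1
      simp [h1, h2]
    · by_cases h2 : i ∈ B
      · simp [h1, h2]
      · simp [h1, h2, hc i (by simp [h1, h2])]
  have hab : bf D.g a b = 0 := D.ir_bf_zero ha0 hb0 h
  have hq : qf D.g c = qf D.g a + qf D.g b := by
    rw [hcab]
    unfold qf
    rw [D.bf_add_left, D.bf_comm a, D.bf_add_left, D.bf_comm b (a + b), D.bf_add_left, hab,
      D.bf_comm b a, hab]
    ring
  have na : 0 ≤ qf D.g a := by
    by_cases h0 : a = 0
    · rw [h0]; unfold qf bf; simp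
    · exact (hA a ha0 h0).le
  have nb : 0 ≤ qf D.g b := by
    by_cases h0 : b = 0
    · rw [h0]; unfold qf bf; simp
    · exact (hB b hb0 h0).le
  rw [hq]
  by_cases h0 : a = 0
  · have h1 : b ≠ 0 := by
      intro hb00
      rw [h0, hb00] at hcab
      exact hc0 (by rw [hcab]; simp)
    have := hB b hb0 h1; linarith
  · have := hA a ha0 h0; linarith

/-- two disjoint sets which are not positive definite are joined by an edge -/
theorem ir_touch {L M : Finset D.ι} (hL : ¬ PD D.g L) (hM : ¬ PD D.g M) (hd : Disjoint L M) :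
    ∃ i ∈ L, ∃ j ∈ M, D.g i j ≠ 0 := by
  by_contra hcon
  push Not at hcon
  obtain ⟨b, hb1, -, hb2⟩ := D.sl_neg hL
  obtain ⟨c, hc1, -, hc2⟩ := D.sl_neg hM
  have := D.sig b c hb2 (D.ir_bf_zero hb1 hc1 hcon)
  linarith

variable {D}

/-- Lannér sets are connected -/
theorem Lan.cn {L : Finset D.ι} (hL : D.Lan L) {a b : D.ι} (ha : a ∈ L) (hb : b ∈ L) :
    D.Cn L a b := by
  classical
  by_contra hcon
  set A : Finset D.ι := L.filter fun x => D.Cn L a x with hA
  have hAL : A ⊆ L := Finset.filter_subset _ _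
  have haA : a ∈ A := Finset.mem_filter.2 ⟨ha, Relation.ReflTransGen.refl⟩
  have hbA : b ∉ A := fun h => hcon (Finset.mem_filter.1 h).2
  have h1 : PD D.g A := hL.pd_of_ssubset hAL (fun e => hbA (e ▸ hb))
  have h2 : PD D.g (L \ A) := hL.pd_of_ssubset Finset.sdiff_subset (by
    intro e
    have : a ∈ L \ A := by rw [e]; exact ha
    exact (Finset.mem_sdiff.1 this).2 haA)
  have h3 := D.ir_pd_union h1 h2 (fun i hi j hj => by
    obtain ⟨hj1, hj2⟩ := Finset.mem_sdiff.1 hj
    by_contra hne
    obtain ⟨hi1, hi2⟩ := Finset.mem_filter.1 hi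
    apply hj2
    refine Finset.mem_filter.2 ⟨hj1, hi2.tail ⟨hi1, hj1, ?_, hne⟩⟩
    rintro rfl
    exact hj2 hi)
    Finset.disjoint_sdiff
  rw [Finset.union_sdiff_of_subset hAL] at h3
  exact hL.1 h3

/-- in a triangular 2-face at most one of the three facets separates the other two -/
theorem ir_tri {K : Finset D.ι} (hK : K.card + 2 = n) {a b c : D.ι} (h1 : D.Lk K a b)
    (h2 : D.Lk K a c) (h3 : D.Lk K b c) :
    D.Cn (insert a (insert b K)) a b ∨ D.Cn (insert b (insert c K)) b c := by
  classical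
  by_cases hs : D.Cn (insert a (insert b K)) a b
  · exact Or.inl hs
  right
  have hcT : c ∉ insert a (insert b K) := by
    simp only [Finset.mem_insert, not_or]
    exact ⟨h2.2.2.1.symm, h3.2.2.1.symm, h2.2.1⟩
  have hn : ¬ PD D.g (insert c (insert a (insert b K))) := by
    intro h
    have := D.card_le _ h
    rw [Finset.card_insert_of_notMem hcT, Finset.card_insert_of_notMem, Finset.card_insert_of_notMem
      h1.2.1] at this
    · omega
    · simp only [Finset.mem_insert, not_or]
      exact ⟨h1.2.2.1, h1.1⟩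
  obtain ⟨L, hLS, hL⟩ := D.exists_lan _ hn
  have hbL : b ∈ L := by
    by_contra hb
    refine hL.1 (h2.2.2.2.mono fun x hx => ?_)
    have := hLS hx
    simp only [Finset.mem_insert] at this ⊢
    rcases this with rfl | rfl | rfl | h
    · exact Or.inr (Or.inl rfl)
    · exact Or.inl rfl
    · exact absurd hx hb
    · exact Or.inr (Or.inr h)
  have hcL : c ∈ L := by
    by_contra hc
    refine hL.1 (h1.2.2.2.mono fun x hx => ?_)
    have := hLS hx
    simp only [Finset.mem_insert] at this ⊢
    rcases this with rfl | h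
    · exact absurd hx hc
    · exact h
  obtain ⟨x, y, hxy, hx, hy⟩ := ir_exit (hL.cn hbL hcL)
    (p := fun x => x ∈ insert a (insert b K) ∧ D.Cn (insert a (insert b K)) b x)
    ⟨by simp, Relation.ReflTransGen.refl⟩ (fun h => hcT h.1)
  have hyc : y = c := by
    have h4 := hLS hxy.2.1
    rcases Finset.mem_insert.1 h4 with h4 | h4
    · exact h4
    · exact absurd ⟨h4, hx.2.trans (Stp.cn ⟨hx.1, h4, hxy.2.2⟩)⟩ hy
  subst hyc
  have hab : ¬ D.Cn (insert a (insert b K)) b a := fun h => hs h.symm
  have hxa : x ≠ a := fun e => hab (e ▸ hx.2)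
  have hsub : (insert a (insert b K)).erase a ⊆ insert b (insert y K) := by
    intro z hz
    obtain ⟨hz1, hz2⟩ := Finset.mem_erase.1 hz
    simp only [Finset.mem_insert] at hz2 ⊢
    rcases hz2 with h | h | h
    · exact absurd h hz1
    · exact Or.inl h
    · exact Or.inr (Or.inr h)
  have h5 : D.Cn (insert b (insert y K)) b x := (hx.2.avoid hab).mono hsub
  exact h5.trans (Stp.cn ⟨hsub (Finset.mem_erase.2 ⟨hxa, hx.1⟩), by simp, hxy.2.2⟩)

/-- the first of `i, i'` on a chain -/
theorem ir_hit {K L : Finset D.ι} {i i' z : D.ι} (hLS : L ⊆ insert i (insert i' K))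
    (h : D.Cn L z i) (hz : z ∈ L) : ∃ x, (x = i ∨ x = i') ∧ z ∈ insert x K ∧
      D.Cn (insert x K) z x := by
  unfold Cn at h
  induction h using Relation.ReflTransGen.head_induction_on with
  | refl => exact ⟨i, Or.inl rfl, by simp, Relation.ReflTransGen.refl⟩
  | @head z w hzw hwi ih =>
    obtain ⟨x, hx, hwx, hcx⟩ := ih hzw.2.1
    have h1 := hLS hz
    simp only [Finset.mem_insert] at h1
    rcases h1 with rfl | rfl | h1
    · exact ⟨z, Or.inl rfl, by simp, Relation.ReflTransGen.refl⟩
    · exact ⟨z, Or.inr rfl, by simp, Relation.ReflTransGen.refl⟩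
    · have h2 := hLS hzw.2.1
      simp only [Finset.mem_insert] at h2
      rcases h2 with h2 | h2 | h2
      · refine ⟨i, Or.inl rfl, by simp [h1], Stp.cn ?_⟩
        rw [← h2]
        exact ⟨by simp [h1], by simp, hzw.2.2⟩
      · refine ⟨i', Or.inr rfl, by simp [h1], Stp.cn ?_⟩
        rw [← h2]
        exact ⟨by simp [h1], by simp, hzw.2.2⟩
      · exact ⟨x, hx, by simp [h1], Cn.trans (Stp.cn ⟨by simp [h1], by simp [h2], hzw.2.2⟩) hcx⟩

/-- a quadrangular 2-face has a vertex with the two facets in one component -/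
theorem ir_quad {K : Finset D.ι} {i i' j j' : D.ι}
    (hij : D.Lk K i j) (hij' : D.Lk K i j') (hi'j : D.Lk K i' j) (hi'j' : D.Lk K i' j')
    (h1 : ¬ PD D.g (insert i (insert i' K))) (h2 : ¬ PD D.g (insert j (insert j' K))) :
    ∃ x y, D.Lk K x y ∧ D.Cn (insert x (insert y K)) x y := by
  classical
  obtain ⟨L, hLS, hL⟩ := D.exists_lan _ h1
  obtain ⟨M, hMS, hM⟩ := D.exists_lan _ h2
  have hiL : i ∈ L := by
    by_contra hi
    refine hL.1 (hi'j.2.2.2.mono fun x hx => ?_)
    have := hLS hx
    simp only [Finset.mem_insert] at this ⊢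
    rcases this with rfl | h | h
    · exact absurd hx hi
    · exact Or.inl h
    · exact Or.inr (Or.inr h)
  have hjM : j ∈ M := by
    by_contra hj
    refine hM.1 (hij'.2.2.2.mono fun x hx => ?_)
    have := hMS hx
    simp only [Finset.mem_insert] at this ⊢
    rcases this with rfl | h | h
    · exact absurd hx hj
    · exact Or.inr (Or.inl h)
    · exact Or.inr (Or.inr h)
  have key : ∀ z ∈ L, ∀ w ∈ M, (z = w ∨ D.g z w ≠ 0) →
      ∃ x y, D.Lk K x y ∧ D.Cn (insert x (insert y K)) x y := by
    intro z hz w hw hzw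
    obtain ⟨x, hx, hzx, hcx⟩ := ir_hit hLS (hL.cn hz hiL) hz
    obtain ⟨y, hy, hwy, hcy⟩ := ir_hit hMS (hM.cn hw hjM) hw
    have hs1 : insert x K ⊆ insert x (insert y K) :=
      Finset.insert_subset_insert _ (Finset.subset_insert _ _)
    have hs2 : insert y K ⊆ insert x (insert y K) := Finset.subset_insert _ _
    refine ⟨x, y, ?_, ?_⟩
    · rcases hx with rfl | rfl <;> rcases hy with rfl | rfl <;> assumption
    · have c1 := hcx.symm.mono hs1
      have c2 := hcy.mono hs2
      by_cases he : z = w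
      · subst he
        exact c1.trans c2
      · rcases hzw with h | h
        · exact absurd h he
        · exact (c1.trans (Stp.cn ⟨hs1 hzx, hs2 hwy, he, h⟩)).trans c2
  by_cases hd : Disjoint L M
  · obtain ⟨z, hz, w, hw, h⟩ := D.ir_touch hL.1 hM.1 hd
    exact key z hz w hw (Or.inr h)
  · rw [Finset.not_disjoint_iff] at hd
    obtain ⟨z, hz, hz'⟩ := hd
    exact key z hz z hz' (Or.inl rfl)

/-! ### Counting -/

variable (D)

/-- `P` is a pair in one component of `v` -/
def SP (v P : Finset D.ι) : Prop := ∃ a b, P = {a, b} ∧ a ≠ b ∧ D.Cn v a b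

/-- number of the good corners of a 2-face -/
noncomputable def cc (K : Finset D.ι) : ℕ :=
  open scoped Classical in
  ((Verts D.g n).filter fun v => K ⊆ v ∧ D.SP v (v \ K)).card

/-- number of the pairs in one component of `v` -/
noncomputable def cN (v : Finset D.ι) : ℕ :=
  open scoped Classical in
  ((v.powersetCard 2).filter fun P => D.SP v P).card

theorem sum_cc (hn : 2 ≤ n) :
    ∑ K ∈ Faces2 D.g n, D.cc K = ∑ v ∈ Verts D.g n, D.cN v := by
  classical
  unfold cc cN
  have h1 := Finset.sum_card_bipartiteAbove_eq_sum_card_bipartiteBelow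
    (s := Faces2 D.g n) (t := Verts D.g n) (fun K v => K ⊆ v ∧ D.SP v (v \ K))
  unfold Finset.bipartiteAbove Finset.bipartiteBelow at h1
  rw [h1]
  refine Finset.sum_congr rfl fun v hv => ?_
  have hvc := (mem_Verts.1 hv).2
  refine Finset.card_bij (fun K _ => v \ K) ?_ ?_ ?_
  · intro K hK
    rw [Finset.mem_filter, mem_Faces2] at hK
    rw [Finset.mem_filter, Finset.mem_powersetCard]
    refine ⟨⟨Finset.sdiff_subset, ?_⟩, hK.2.2⟩
    rw [Finset.card_sdiff_of_subset hK.2.1]; omega
  · intro K hK K' hK' h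
    rw [Finset.mem_filter] at hK hK'
    rw [← Finset.sdiff_sdiff_eq_self hK.2.1, ← Finset.sdiff_sdiff_eq_self hK'.2.1, h]
  · intro P hP
    rw [Finset.mem_filter, Finset.mem_powersetCard] at hP
    refine ⟨v \ P, ?_, Finset.sdiff_sdiff_eq_self hP.1.1⟩
    rw [Finset.mem_filter, mem_Faces2]
    refine ⟨⟨?_, v, hv, Finset.sdiff_subset⟩, Finset.sdiff_subset, ?_⟩
    · rw [Finset.card_sdiff_of_subset hP.1.1]; omega
    · rw [Finset.sdiff_sdiff_eq_self hP.1.1]; exact hP.2

variable {D}

open scoped Classical in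
/-- a vertex of the face with the two facets in one component is counted -/
theorem mem_cc {K : Finset D.ι} (hK : K.card + 2 = n) {a b : D.ι} (h : D.Lk K a b)
    (hc : D.Cn (insert a (insert b K)) a b) :
    insert a (insert b K) ∈ (Verts D.g n).filter (fun v => K ⊆ v ∧ D.SP v (v \ K)) := by
  have hab : a ∉ insert b K := by
    simp only [Finset.mem_insert, not_or]
    exact ⟨h.2.2.1, h.1⟩
  rw [Finset.mem_filter, mem_Verts]
  refine ⟨⟨h.2.2.2, ?_⟩, fun z hz => by simp [hz], a, b, ?_, h.2.2.1, hc⟩
  · rw [Finset.card_insert_of_notMem hab, Finset.card_insert_of_notMem h.2.1]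
    omega
  · ext z
    simp only [Finset.mem_sdiff, Finset.mem_insert, Finset.mem_singleton]
    constructor
    · rintro ⟨h1 | h1 | h1, h2⟩
      · exact Or.inl h1
      · exact Or.inr h1
      · exact absurd h1 h2
    · rintro (rfl | rfl)
      · exact ⟨Or.inl rfl, h.1⟩
      · exact ⟨Or.inr (Or.inl rfl), h.2.1⟩

theorem ir_face {K : Finset D.ι} (hK : K ∈ Faces2 D.g n) :
    max (5 - (kF D.g n K : ℝ)) 0 ≤ D.cc K := by
  classical
  have hKc := (mem_Faces2.1 hK).1
  have hcn : (0 : ℝ) ≤ D.cc K := Nat.cast_nonneg _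
  have hge := (D.face_struct hK).2.2
  refine max_le ?_ hcn
  by_cases hk3 : kF D.g n K = 3
  · obtain ⟨a, b, c, l1, l2, l3⟩ := (D.face_struct hK).1 hk3
    have s1 := ir_tri hKc l1 l2 l3
    have s2 := ir_tri hKc (l1.symm D) l3 l2
    have s3 := ir_tri hKc l2 l1 (l3.symm D)
    have two : ∀ v w : Finset D.ι, v ≠ w →
        v ∈ (Verts D.g n).filter (fun v => K ⊆ v ∧ D.SP v (v \ K)) →
        w ∈ (Verts D.g n).filter (fun v => K ⊆ v ∧ D.SP v (v \ K)) → 2 ≤ D.cc K := by
      intro v w hvw hv hw
      unfold cc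
      exact Finset.one_lt_card.2 ⟨v, hv, w, hw, hvw⟩
    have n1 : (insert a (insert b K) : Finset D.ι) ≠ insert a (insert c K) := by
      intro e
      have : b ∈ insert a (insert c K) := by rw [← e]; simp
      simp only [Finset.mem_insert] at this
      rcases this with h | h | h
      · exact l1.2.2.1 h.symm
      · exact l3.2.2.1 h
      · exact l1.2.1 h
    have n2 : (insert a (insert b K) : Finset D.ι) ≠ insert b (insert c K) := by
      intro e
      have : a ∈ insert b (insert c K) := by rw [← e]; simp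
      simp only [Finset.mem_insert] at this
      rcases this with h | h | h
      · exact l1.2.2.1 h
      · exact l2.2.2.1 h
      · exact l1.1 h
    have n3 : (insert a (insert c K) : Finset D.ι) ≠ insert b (insert c K) := by
      intro e
      have : a ∈ insert b (insert c K) := by rw [← e]; simp
      simp only [Finset.mem_insert] at this
      rcases this with h | h | h
      · exact l1.2.2.1 h
      · exact l2.2.2.1 h
      · exact l1.1 h
    have h2 : 2 ≤ D.cc K := by
      by_cases t1 : D.Cn (insert a (insert b K)) a b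
      · by_cases t2 : D.Cn (insert a (insert c K)) a c
        · exact two _ _ n1 (mem_cc hKc l1 t1) (mem_cc hKc l2 t2)
        · have t3 : D.Cn (insert b (insert c K)) b c := by
            rcases s3 with h | h
            · exact absurd h t2
            · rw [Finset.insert_comm]
              exact h.symm
          exact two _ _ n2 (mem_cc hKc l1 t1) (mem_cc hKc l3 t3)
      · have t3 : D.Cn (insert b (insert c K)) b c := s1.resolve_left t1
        have t2 : D.Cn (insert a (insert c K)) a c := by
          rcases s2 with h | h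
          · exfalso
            apply t1
            rw [Finset.insert_comm]
            exact h.symm
          · exact h
        exact two _ _ n3 (mem_cc hKc l2 t2) (mem_cc hKc l3 t3)
    have h2' : (2 : ℝ) ≤ D.cc K := by exact_mod_cast h2
    rw [hk3]
    push_cast
    linarith
  · by_cases hk4 : kF D.g n K = 4
    · obtain ⟨i, i', j, j', -, -, h3, h4, h5, h6, h7, h8⟩ := (D.face_struct hK).2.1 hk4
      obtain ⟨x, y, l, hc⟩ := ir_quad h3 h4 h5 h6 h7 h8
      have h1 : 1 ≤ D.cc K := by
        unfold cc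
        exact Finset.card_pos.2 ⟨_, mem_cc hKc l hc⟩
      have h1' : (1 : ℝ) ≤ D.cc K := by exact_mod_cast h1
      rw [hk4]
      push_cast
      linarith
    · have h5 : 5 ≤ kF D.g n K := by omega
      have h5' : (5 : ℝ) ≤ kF D.g n K := by exact_mod_cast h5
      linarith

end CoxData

end MP345
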