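import Mathlib
import Pool.Agent.Work.MP_345ef2_irr.Irr

/-!
# Irreducible factors of the vertex groups: the bound (MP_345ef2_gt)
-/

set_option autoImplicit false

namespace MP345

open Finset

variable {n : ℕ}

namespace CoxData

variable (D : CoxData n)

/-- the component of `i` in `v` -/
noncomputable def cmp (v : Finset D.ι) (i : D.ι) : Finset D.ι :=
  open scoped Classical in v.filter fun j => D.Cn v i j

variable {D}

theorem mem_cmp {v : Finset D.ι} {i j : D.ι} : j ∈ D.cmp v i ↔ j ∈ v ∧ D.Cn v i j := by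
  classical
  unfold cmp
  exact Finset.mem_filter

theorem self_cmp {v : Finset D.ι} {i : D.ι} (hi : i ∈ v) : i ∈ D.cmp v i :=
  mem_cmp.2 ⟨hi, Relation.ReflTransGen.refl⟩

theorem cmp_eq {v : Finset D.ι} {i j : D.ι} (h : j ∈ D.cmp v i) : D.cmp v j = D.cmp v i := by
  obtain ⟨-, h2⟩ := mem_cmp.1 h
  ext k
  rw [mem_cmp, mem_cmp]
  exact ⟨fun ⟨h3, h4⟩ => ⟨h3, h2.trans h4⟩, fun ⟨h3, h4⟩ => ⟨h3, h2.symm.trans h4⟩⟩

/-- a component is connected in itself -/
theorem cn_cmp {v : Finset D.ι} {i : D.ι} {j : D.ι} (h : D.Cn v i j) :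
    D.Cn (D.cmp v i) i j := by
  unfold Cn at h
  induction h with
  | refl => exact Relation.ReflTransGen.refl
  | @tail y z hy hyz ih =>
    exact Relation.ReflTransGen.tail ih
      ⟨mem_cmp.2 ⟨hyz.1, hy⟩, mem_cmp.2 ⟨hyz.2.1, hy.tail hyz⟩, hyz.2.2⟩

theorem sp_iff {v : Finset D.ι} {i j : D.ι} (hij : i ≠ j) : D.SP v {i, j} ↔ D.Cn v i j := by
  constructor
  · rintro ⟨a, b, h1, h2, h3⟩
    rcases pair_eq.1 h1 with ⟨rfl, rfl⟩ | ⟨rfl, rfl⟩
    · exact h3
    · exact h3.symm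
  · intro h
    exact ⟨i, j, rfl, hij, h⟩

/-- twice the number of the pairs in one component -/
theorem two_cN (v : Finset D.ι) :
    (2 * (D.cN v : ℝ)) = ∑ i ∈ v, (((D.cmp v i).card : ℝ) - 1) := by
  classical
  have h1 := sum_pairs v (fun P => if D.SP v P then (1 : ℝ) else 0)
  have h2 : ∑ P ∈ v.powersetCard 2, (if D.SP v P then (1 : ℝ) else 0) = D.cN v := by
    unfold cN
    rw [Finset.sum_ite, Finset.sum_const_zero, add_zero, Finset.sum_const, nsmul_eq_mul, mul_one]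
  rw [h2] at h1
  rw [← h1]
  refine Finset.sum_congr rfl fun i hi => ?_
  have h3 : ∑ j ∈ v.erase i, (if D.SP v {i, j} then (1 : ℝ) else 0) =
      (((D.cmp v i).erase i).card : ℝ) := by
    rw [← Finset.sum_filter, Finset.sum_const, nsmul_eq_mul, mul_one]
    congr 2
    ext j
    rw [Finset.mem_filter, Finset.mem_erase, Finset.mem_erase, mem_cmp]
    constructor
    · rintro ⟨⟨h4, h5⟩, h6⟩
      exact ⟨h4, h5, (sp_iff h4.symm).1 h6⟩
    · rintro ⟨h4, h5, h6⟩
      exact ⟨⟨h4, h5⟩, (sp_iff h4.symm).2 h6⟩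
  rw [h3, Finset.card_erase_of_mem (self_cmp hi)]
  have h4 : 1 ≤ (D.cmp v i).card := Finset.card_pos.2 ⟨i, self_cmp hi⟩
  push_cast [h4]
  ring

/-- simple bound -/
theorem cN_le {v : Finset D.ι} {c : ℕ} (h : ∀ i ∈ v, (D.cmp v i).card ≤ c) :
    2 * (D.cN v : ℝ) ≤ v.card * ((c : ℝ) - 1) := by
  rw [two_cN, ← nsmul_eq_mul, ← Finset.sum_const]
  refine Finset.sum_le_sum fun i hi => ?_
  have : ((D.cmp v i).card : ℝ) ≤ c := by exact_mod_cast h i hi
  linarith

/-- the number of the elements is a multiple of the common size of the components -/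
theorem dvd_card {v : Finset D.ι} {c : ℕ} (h : ∀ i ∈ v, (D.cmp v i).card = c) : c ∣ v.card := by
  classical
  have h1 : v.card = ∑ b ∈ v.image (D.cmp v), (v.filter fun j => D.cmp v j = b).card :=
    Finset.card_eq_sum_card_image (D.cmp v) v
  rw [h1]
  refine Finset.dvd_sum fun b hb => ?_
  obtain ⟨i, hi, rfl⟩ := Finset.mem_image.1 hb
  have h2 : v.filter (fun j => D.cmp v j = D.cmp v i) = D.cmp v i := by
    ext j
    rw [Finset.mem_filter]
    constructor
    · rintro ⟨h3, h4⟩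
      rw [← h4]
      exact self_cmp h3
    · intro h3
      exact ⟨(mem_cmp.1 h3).1, cmp_eq h3⟩
  rw [h2, h i hi]

/-- better bound if `c` does not divide the number of the elements -/
theorem cN_lt {v : Finset D.ι} {c : ℕ} (h : ∀ i ∈ v, (D.cmp v i).card ≤ c)
    (hc : ¬ c ∣ v.card) : 2 * (D.cN v : ℝ) ≤ ((v.card : ℝ) - 1) * ((c : ℝ) - 1) := by
  classical
  obtain ⟨i, hi, hne⟩ : ∃ i ∈ v, (D.cmp v i).card ≠ c := by
    by_contra hcon
    push Not at hcon
    exact hc (dvd_card hcon)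
  have hlt : (D.cmp v i).card < c := lt_of_le_of_ne (h i hi) hne
  obtain ⟨s, hs⟩ : ∃ s, s = (D.cmp v i).card := ⟨_, rfl⟩
  have hs1 : 1 ≤ s := by rw [hs]; exact Finset.card_pos.2 ⟨i, self_cmp hi⟩
  have hsub : D.cmp v i ⊆ v := fun j hj => (mem_cmp.1 hj).1
  rw [two_cN]
  have h1 : ∑ j ∈ v, ((c : ℝ) - 1 - (((D.cmp v j).card : ℝ) - 1)) ≥
      ∑ j ∈ D.cmp v i, ((c : ℝ) - s) := by
    calc ∑ j ∈ v, ((c : ℝ) - 1 - (((D.cmp v j).card : ℝ) - 1))
        ≥ ∑ j ∈ D.cmp v i, ((c : ℝ) - 1 - (((D.cmp v j).card : ℝ) - 1)) :=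
          Finset.sum_le_sum_of_subset_of_nonneg hsub fun j hj _ => by
            have : ((D.cmp v j).card : ℝ) ≤ c := by exact_mod_cast h j hj
            linarith
      _ = ∑ j ∈ D.cmp v i, ((c : ℝ) - s) := by
          refine Finset.sum_congr rfl fun j hj => ?_
          rw [cmp_eq hj, ← hs]
          ring
  rw [Finset.sum_sub_distrib, Finset.sum_const, Finset.sum_const, nsmul_eq_mul, nsmul_eq_mul,
    ← hs] at h1
  have hs' : (1 : ℝ) ≤ s := by exact_mod_cast hs1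
  have hc' : (s : ℝ) + 1 ≤ c := by
    have : s + 1 ≤ c := by omega
    exact_mod_cast this
  nlinarith

/-- **the bound** -/
theorem ir_bound (hn : 2 ≤ n) {c : ℕ}
    (hc : ∀ v ∈ Verts D.g n, ∀ i ∈ v, (D.cmp v i).card ≤ c)
    (h1 : (n : ℝ) * (n - 6) * (Verts D.g n).card <
      8 * ∑ K ∈ Faces2 D.g n, max (5 - (kF D.g n K : ℝ)) 0)
    (h2 : ∀ m : ℕ, n = 2 * m + 1 → ((n : ℝ) - 1) * (n - 5) * (Verts D.g n).card <
      8 * ∑ K ∈ Faces2 D.g n, max (5 - (kF D.g n K : ℝ)) 0) : n ≤ 4 * c := by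
  classical
  have hpos : (0 : ℝ) < (Verts D.g n).card := by
    exact_mod_cast Finset.card_pos.2 D.verts_nonempty
  have hc1 : 1 ≤ c := by
    obtain ⟨v, hv⟩ := D.verts_nonempty
    have hvc := (mem_Verts.1 hv).2
    obtain ⟨i, hi⟩ : v.Nonempty := Finset.card_pos.1 (by omega)
    have h3 : 1 ≤ (D.cmp v i).card := Finset.card_pos.2 ⟨i, self_cmp hi⟩
    exact h3.trans (hc v hv i hi)
  have hsum : ∑ K ∈ Faces2 D.g n, max (5 - (kF D.g n K : ℝ)) 0 ≤
      ∑ v ∈ Verts D.g n, (D.cN v : ℝ) := by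
    have h3 : ∑ K ∈ Faces2 D.g n, max (5 - (kF D.g n K : ℝ)) 0 ≤
        ∑ K ∈ Faces2 D.g n, (D.cc K : ℝ) := Finset.sum_le_sum fun K hK => ir_face hK
    have h4 : ∑ K ∈ Faces2 D.g n, (D.cc K : ℝ) = ∑ v ∈ Verts D.g n, (D.cN v : ℝ) := by
      exact_mod_cast D.sum_cc hn
    linarith
  by_contra hlt
  push Not at hlt
  -- the simple bound
  have h5 : ∑ v ∈ Verts D.g n, 2 * (D.cN v : ℝ) ≤ ∑ v ∈ Verts D.g n, (n : ℝ) * ((c : ℝ) - 1) := by
    refine Finset.sum_le_sum fun v hv => ?_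
    have h6 := cN_le (hc v hv)
    rwa [(mem_Verts.1 hv).2] at h6
  rw [← Finset.mul_sum, Finset.sum_const, nsmul_eq_mul] at h5
  have hn4 : n = 4 * c + 1 := by
    by_contra hne
    have h6 : (4 : ℝ) * c + 2 ≤ n := by
      have : 4 * c + 2 ≤ n := by omega
      exact_mod_cast this
    have hn0 : (0 : ℝ) < n := by
      have : 0 < n := by omega
      exact_mod_cast this
    have h7 : (n : ℝ) * (n - 6) * (Verts D.g n).card <
        4 * n * ((c : ℝ) - 1) * (Verts D.g n).card := by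
      nlinarith
    have h8 := lt_of_mul_lt_mul_right h7 hpos.le
    nlinarith
  -- the case `n = 4 c + 1`
  have h9 : ∀ v ∈ Verts D.g n, 2 * (D.cN v : ℝ) ≤ ((n : ℝ) - 1) * ((c : ℝ) - 1) := by
    intro v hv
    have hvc := (mem_Verts.1 hv).2
    by_cases hd : c ∣ v.card
    · have hc2 : c = 1 := by
        rw [hvc, hn4] at hd
        have h10 : c ∣ 1 := (Nat.dvd_add_right (Dvd.intro_left 4 rfl)).1 hd
        exact Nat.dvd_one.1 h10
      have h11 := cN_le (hc v hv)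
      rw [hc2] at h11 ⊢
      push_cast at h11 ⊢
      linarith
    · have h11 := cN_lt (hc v hv) hd
      rwa [hvc] at h11
  have h12 := Finset.sum_le_sum h9
  rw [← Finset.mul_sum, Finset.sum_const, nsmul_eq_mul] at h12
  have h13 := h2 (2 * c) (by omega)
  have hn' : (n : ℝ) = 4 * c + 1 := by rw [hn4]; push_cast; ring
  have hc1' : (1 : ℝ) ≤ c := by exact_mod_cast hc1
  have h14 : ((n : ℝ) - 1) * (n - 5) * (Verts D.g n).card <
      4 * (((n : ℝ) - 1) * ((c : ℝ) - 1)) * (Verts D.g n).card := by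
    nlinarith
  have h15 := lt_of_mul_lt_mul_right h14 hpos.le
  rw [hn'] at h15
  nlinarith

/-- there is a large component -/
theorem exists_cmp (hn : 2 ≤ n)
    (h1 : (n : ℝ) * (n - 6) * (Verts D.g n).card <
      8 * ∑ K ∈ Faces2 D.g n, max (5 - (kF D.g n K : ℝ)) 0)
    (h2 : ∀ m : ℕ, n = 2 * m + 1 → ((n : ℝ) - 1) * (n - 5) * (Verts D.g n).card <
      8 * ∑ K ∈ Faces2 D.g n, max (5 - (kF D.g n K : ℝ)) 0) :
    ∃ v ∈ Verts D.g n, ∃ i ∈ v, n ≤ 4 * (D.cmp v i).card := by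
  by_contra hcon
  push Not at hcon
  have h3 : n ≤ 4 * ((n - 1) / 4) := ir_bound (D := D) hn (fun v hv i hi => by
    have := hcon v hv i hi
    omega) h1 h2
  omega

end CoxData

/-- `i` and `j` are joined by a chain of facets in `S`, consecutive ones not orthogonal -/
def Joined (P : CoxeterPolytope n) (S : Set P.ι) (i j : P.ι) : Prop :=
  Relation.ReflTransGen (fun a b => a ∈ S ∧ b ∈ S ∧ lor (P.u a) (P.u b) ≠ 0) i j

/-- **A vertex of a compact Coxeter polytope whose group has an irreducible factor of rank at least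
`n / 4`.** -/
theorem exists_large_factor (hn : 2 ≤ n) (P : CoxeterPolytope n) :
    ∃ x ∈ Hyp n, (∀ k, lor x (P.u k) ≤ 0) ∧ Nat.card {k // lor x (P.u k) = 0} = n ∧
      ∃ S : Finset P.ι, (∀ i ∈ S, lor x (P.u i) = 0) ∧
        (∀ i ∈ S, ∀ j ∈ S, Joined P S i j) ∧ n ≤ 4 * S.card := by
  classical
  obtain ⟨C, e, he⟩ := fl_cone (by omega) P
  obtain ⟨v, hv, i, hi, hle⟩ := CoxData.exists_cmp (D := C.toCoxData) hn (C.count_lt hn)
    (fun m hm => C.count_odd_lt hm (by omega))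
  obtain ⟨hvp, hvc⟩ := mem_Verts.1 hv
  obtain ⟨x, hxH, h1, h2⟩ := fl_point (by omega) P C e he (S := v) hvp
  have hx : ∀ k : P.ι, lor x (P.u k) = 0 ↔ e.symm k ∈ v := by
    intro k
    constructor
    · intro h
      by_contra hk
      have := h2 _ hk
      rw [e.apply_symm_apply] at this
      linarith
    · intro h
      have := h1 _ h
      rwa [e.apply_symm_apply] at this
  have hC : ∀ {T : Finset C.ι} {a b : C.ι}, CoxData.Cn (D := C.toCoxData) T a b →
      Joined P (T.map e.toEmbedding : Finset P.ι) (e a) (e b) := by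
    intro T a b h
    unfold CoxData.Cn at h
    induction h with
    | refl => exact Relation.ReflTransGen.refl
    | @tail y z hy hyz ih =>
      refine Relation.ReflTransGen.tail ih ⟨?_, ?_, ?_⟩
      · exact Finset.mem_coe.2 (Finset.mem_map.2 ⟨y, hyz.1, rfl⟩)
      · exact Finset.mem_coe.2 (Finset.mem_map.2 ⟨z, hyz.2.1, rfl⟩)
      · rw [← he, ← he]
        exact hyz.2.2.2
  refine ⟨x, hxH, ?_, ?_, (CoxData.cmp (D := C.toCoxData) v i).map e.toEmbedding, ?_, ?_, ?_⟩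
  · intro k
    by_cases hk : e.symm k ∈ v
    · exact ((hx k).2 hk).le
    · have := h2 _ hk
      rw [e.apply_symm_apply] at this
      exact this.le
  · have h5 : {k // lor x (P.u k) = 0} ≃ {a // a ∈ v} := e.symm.subtypeEquiv hx
    rw [Nat.card_congr h5, Nat.card_eq_fintype_card, Fintype.card_coe]
    exact hvc
  · intro k hk
    obtain ⟨j, hj, rfl⟩ := Finset.mem_map.1 hk
    exact h1 _ (CoxData.mem_cmp.1 hj).1
  · intro a ha b hb
    obtain ⟨a', ha', rfl⟩ := Finset.mem_map.1 ha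
    obtain ⟨b', hb', rfl⟩ := Finset.mem_map.1 hb
    have c1 := CoxData.cn_cmp (CoxData.mem_cmp.1 ha').2
    have c2 := CoxData.cn_cmp (CoxData.mem_cmp.1 hb').2
    exact hC (c1.symm.trans c2)
  · exact le_of_le_of_eq hle (congrArg (4 * ·) (Finset.card_map
      (f := e.toEmbedding) (s := (CoxData.cmp (D := C.toCoxData) v i : Finset C.ι))).symm)

end MP345
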