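import Mathlib
import Pool.Agent.Work.MP_345ef2_irr.Irr2

/-!
# Many non-right dihedral angles at a vertex (MP_345ef2_gt)

A diagram with `e` edges has at most `e (e + 1) / 2` pairs in common components; with the inequality
of `Irr2.lean` this gives `n ≤ 2 e + 4`.
-/

set_option autoImplicit false

namespace MP345

open Finset

variable {n : ℕ}

namespace CoxData

variable {D : CoxData n}

/-- growing a set that meets all components -/
theorem nr_grow (v : Finset D.ι) : ∀ (m : ℕ) (T : Finset D.ι), T ⊆ v → (v \ T).card = m →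
    (∀ x ∈ v, ∃ r ∈ T, D.Cn v r x) →
    open scoped Classical in
    v.card ≤ T.card + ((v.powersetCard 2).filter fun P => AdjP D.g P ∧ ¬ P ⊆ T).card := by
  classical
  intro m
  induction m with
  | zero =>
    intro T hT h0 _
    have h1 : v ⊆ T := by
      rw [← Finset.sdiff_eq_empty_iff_subset]
      exact Finset.card_eq_zero.1 h0
    exact (Finset.card_le_card h1).trans (Nat.le_add_right _ _)
  | succ m ih =>
    intro T hT hm hr
    obtain ⟨x, hx⟩ : (v \ T).Nonempty := Finset.card_pos.1 (by omega)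
    rw [Finset.mem_sdiff] at hx
    obtain ⟨r, hrT, hc⟩ := hr x hx.1
    obtain ⟨a, b, hab, ha, hb⟩ := ir_exit hc (p := fun z => z ∈ T) hrT hx.2
    have hav : a ∈ v := hab.1
    have hbv : b ∈ v := hab.2.1
    have hne : a ≠ b := hab.2.2.1
    have hg : D.g a b ≠ 0 := hab.2.2.2
    have hT' : insert b T ⊆ v := by
      intro z hz
      rcases Finset.mem_insert.1 hz with rfl | hz
      · exact hbv
      · exact hT hz
    have hcard : (v \ insert b T).card = m := by
      have h1 : v \ insert b T = (v \ T).erase b := by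
        ext z
        simp only [Finset.mem_sdiff, Finset.mem_insert, Finset.mem_erase, not_or]
        tauto
      rw [h1, Finset.card_erase_of_mem (Finset.mem_sdiff.2 ⟨hbv, hb⟩), hm]
      rfl
    have h2 := ih (insert b T) hT' hcard (fun x hx => by
      obtain ⟨r, hr1, hr2⟩ := hr x hx
      exact ⟨r, Finset.mem_insert_of_mem hr1, hr2⟩)
    rw [Finset.card_insert_of_notMem hb] at h2
    have h3 : ((v.powersetCard 2).filter fun P => AdjP D.g P ∧ ¬ P ⊆ insert b T).card + 1 ≤
        ((v.powersetCard 2).filter fun P => AdjP D.g P ∧ ¬ P ⊆ T).card := by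
      have h4 : insert {a, b} ((v.powersetCard 2).filter fun P => AdjP D.g P ∧ ¬ P ⊆ insert b T) ⊆
          (v.powersetCard 2).filter fun P => AdjP D.g P ∧ ¬ P ⊆ T := by
        intro P hP
        rcases Finset.mem_insert.1 hP with rfl | hP
        · rw [Finset.mem_filter, Finset.mem_powersetCard]
          refine ⟨⟨?_, Finset.card_pair hne⟩, ⟨a, by simp, b, by simp, hne, hg⟩, ?_⟩
          · intro z hz
            simp only [Finset.mem_insert, Finset.mem_singleton] at hz
            rcases hz with rfl | rfl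
            · exact hav
            · exact hbv
          · intro hs
            exact hb (hs (by simp))
        · rw [Finset.mem_filter] at hP ⊢
          exact ⟨hP.1, hP.2.1, fun hs => hP.2.2 (hs.trans (Finset.subset_insert _ _))⟩
      have h5 := Finset.card_le_card h4
      rwa [Finset.card_insert_of_notMem] at h5
      rw [Finset.mem_filter]
      rintro ⟨_, _, h6⟩
      apply h6
      intro z hz
      simp only [Finset.mem_insert, Finset.mem_singleton] at hz
      rcases hz with rfl | rfl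
      · exact Finset.mem_insert_of_mem ha
      · exact Finset.mem_insert_self _ _
    omega

/-- the number of components -/
noncomputable def kN (D : CoxData n) (v : Finset D.ι) : ℕ :=
  open scoped Classical in (v.image (D.cmp v)).card

/-- the forest inequality -/
theorem nr_forest (v : Finset D.ι) : v.card ≤ D.kN v + eN D.g v := by
  classical
  let rep : Finset D.ι → Finset D.ι := fun S => if h : S.Nonempty then {h.choose} else ∅
  let T : Finset D.ι := (v.image (D.cmp v)).biUnion rep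
  have hrep : ∀ S : Finset D.ι, (rep S).card ≤ 1 := by
    intro S
    by_cases h : S.Nonempty
    · simp only [rep, dif_pos h, Finset.card_singleton, le_refl]
    · simp only [rep, dif_neg h, Finset.card_empty, zero_le]
  have hTc : T.card ≤ D.kN v := by
    refine Finset.card_biUnion_le.trans ?_
    refine (Finset.sum_le_sum fun S _ => hrep S).trans ?_
    rw [Finset.sum_const, smul_eq_mul, mul_one]
    exact le_rfl
  have hchoose : ∀ x ∈ v, ∃ r, r ∈ D.cmp v x ∧ r ∈ T := by
    intro x hx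
    have h1 : (D.cmp v x).Nonempty := ⟨x, self_cmp hx⟩
    refine ⟨h1.choose, h1.choose_spec, ?_⟩
    refine Finset.mem_biUnion.2 ⟨D.cmp v x, Finset.mem_image_of_mem _ hx, ?_⟩
    simp only [rep, dif_pos h1, Finset.mem_singleton]
  have hTv : T ⊆ v := by
    intro z hz
    obtain ⟨S, hS, hz⟩ := Finset.mem_biUnion.1 hz
    obtain ⟨x, hx, rfl⟩ := Finset.mem_image.1 hS
    have h1 : (D.cmp v x).Nonempty := ⟨x, self_cmp hx⟩
    simp only [rep, dif_pos h1, Finset.mem_singleton] at hz
    rw [hz]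
    exact (mem_cmp.1 h1.choose_spec).1
  have h2 := nr_grow v _ T hTv rfl (fun x hx => by
    obtain ⟨r, hr1, hr2⟩ := hchoose x hx
    exact ⟨r, hr2, (mem_cmp.1 hr1).2.symm⟩)
  have h3 : ((v.powersetCard 2).filter fun P => AdjP D.g P ∧ ¬ P ⊆ T).card ≤ eN D.g v := by
    unfold eN
    refine Finset.card_le_card fun P hP => ?_
    rw [Finset.mem_filter] at hP ⊢
    exact ⟨hP.1, hP.2.1⟩
  omega

/-- a large component leaves room for few components -/
theorem nr_room {v : Finset D.ι} {i : D.ι} (hi : i ∈ v) :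
    (D.cmp v i).card + D.kN v ≤ v.card + 1 := by
  classical
  have hsub : D.cmp v i ⊆ v := fun j hj => (mem_cmp.1 hj).1
  have h1 : v.image (D.cmp v) ⊆ insert (D.cmp v i) ((v \ D.cmp v i).image (D.cmp v)) := by
    intro S hS
    obtain ⟨x, hx, rfl⟩ := Finset.mem_image.1 hS
    by_cases h : x ∈ D.cmp v i
    · rw [cmp_eq h]
      exact Finset.mem_insert_self _ _
    · exact Finset.mem_insert_of_mem (Finset.mem_image_of_mem _ (Finset.mem_sdiff.2 ⟨hx, h⟩))
  have h2 : D.kN v ≤ (v \ D.cmp v i).card + 1 := by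
    unfold kN
    refine (Finset.card_le_card h1).trans ((Finset.card_insert_le _ _).trans ?_)
    exact Nat.add_le_add_right Finset.card_image_le 1
  rw [Finset.card_sdiff_of_subset hsub] at h2
  have h3 := Finset.card_le_card hsub
  omega

/-- the sum of the inverse sizes of the components -/
theorem nr_inv (v : Finset D.ι) : ∑ i ∈ v, (1 : ℝ) / (D.cmp v i).card = D.kN v := by
  classical
  unfold kN
  rw [← Finset.sum_fiberwise_of_maps_to (s := v) (t := v.image (D.cmp v)) (g := D.cmp v)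
    (fun x hx => Finset.mem_image_of_mem _ hx)]
  rw [Finset.card_eq_sum_ones]
  push_cast
  refine Finset.sum_congr rfl fun S hS => ?_
  obtain ⟨x, hx, rfl⟩ := Finset.mem_image.1 hS
  have h2 : v.filter (fun j => D.cmp v j = D.cmp v x) = D.cmp v x := by
    ext j
    rw [Finset.mem_filter]
    constructor
    · rintro ⟨h3, h4⟩
      rw [← h4]
      exact self_cmp h3
    · intro h3
      exact ⟨(mem_cmp.1 h3).1, cmp_eq h3⟩
  have h3 : ∑ i ∈ v.filter (fun j => D.cmp v j = D.cmp v x), (1 : ℝ) / (D.cmp v i).card =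
      ∑ i ∈ v.filter (fun j => D.cmp v j = D.cmp v x), (1 : ℝ) / (D.cmp v x).card := by
    refine Finset.sum_congr rfl fun i hi => ?_
    rw [(Finset.mem_filter.1 hi).2]
  rw [h3, h2, Finset.sum_const, nsmul_eq_mul]
  have h4 : (0 : ℝ) < (D.cmp v x).card := by
    exact_mod_cast Finset.card_pos.2 ⟨x, self_cmp hx⟩
  field_simp

/-- **a diagram with `e` edges has at most `e (e + 1) / 2` pairs in common components** -/
theorem nr_pairs (v : Finset D.ι) : 2 * (D.cN v : ℝ) ≤ (eN D.g v : ℝ) * ((eN D.g v : ℝ) + 1) := by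
  classical
  have hf := nr_forest v
  have hf' : (v.card : ℝ) - D.kN v ≤ eN D.g v := by
    have : (v.card : ℝ) ≤ D.kN v + eN D.g v := by exact_mod_cast hf
    linarith
  have hk : (D.kN v : ℝ) ≤ v.card := by
    have : D.kN v ≤ v.card := by
      unfold kN
      exact Finset.card_image_le
    exact_mod_cast this
  rw [two_cN]
  have h1 : ∀ i ∈ v, ((D.cmp v i).card : ℝ) - 1 ≤
      ((v.card : ℝ) - D.kN v + 1) * (1 - (1 : ℝ) / (D.cmp v i).card) := by
    intro i hi
    have hr : ((D.cmp v i).card : ℝ) + D.kN v ≤ v.card + 1 := by exact_mod_cast nr_room hi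
    have hc1 : (1 : ℝ) ≤ (D.cmp v i).card := by
      exact_mod_cast Finset.card_pos.2 ⟨i, self_cmp hi⟩
    have h2 : ((D.cmp v i).card : ℝ) - 1 =
        ((D.cmp v i).card : ℝ) * (1 - (1 : ℝ) / (D.cmp v i).card) := by
      field_simp
    rw [h2]
    refine mul_le_mul_of_nonneg_right (by linarith) ?_
    rw [sub_nonneg, div_le_one (by linarith)]
    exact hc1
  refine (Finset.sum_le_sum h1).trans ?_
  rw [← Finset.mul_sum, Finset.sum_sub_distrib, nr_inv, Finset.sum_const, nsmul_eq_mul, mul_one]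
  have h0 : (0 : ℝ) ≤ (v.card : ℝ) - D.kN v := by linarith
  nlinarith

/-- **the bound** -/
theorem nr_bound (hn : 2 ≤ n) {e : ℕ} (he : ∀ v ∈ Verts D.g n, eN D.g v ≤ e)
    (h1 : (n : ℝ) * (n - 6) * (Verts D.g n).card <
      8 * ∑ K ∈ Faces2 D.g n, max (5 - (kF D.g n K : ℝ)) 0)
    (h2 : ∀ m : ℕ, n = 2 * m + 1 → ((n : ℝ) - 1) * (n - 5) * (Verts D.g n).card <
      8 * ∑ K ∈ Faces2 D.g n, max (5 - (kF D.g n K : ℝ)) 0) : n ≤ 2 * e + 4 := by
  classical
  have hpos : (0 : ℝ) < (Verts D.g n).card := by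
    exact_mod_cast Finset.card_pos.2 D.verts_nonempty
  have hsum : ∑ K ∈ Faces2 D.g n, max (5 - (kF D.g n K : ℝ)) 0 ≤
      ∑ v ∈ Verts D.g n, (D.cN v : ℝ) := by
    have h3 : ∑ K ∈ Faces2 D.g n, max (5 - (kF D.g n K : ℝ)) 0 ≤
        ∑ K ∈ Faces2 D.g n, (D.cc K : ℝ) := Finset.sum_le_sum fun K hK => ir_face hK
    have h4 : ∑ K ∈ Faces2 D.g n, (D.cc K : ℝ) = ∑ v ∈ Verts D.g n, (D.cN v : ℝ) := by
      exact_mod_cast D.sum_cc hn
    linarith
  have h5 : ∑ v ∈ Verts D.g n, 2 * (D.cN v : ℝ) ≤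
      ∑ v ∈ Verts D.g n, (e : ℝ) * ((e : ℝ) + 1) := by
    refine Finset.sum_le_sum fun v hv => (nr_pairs v).trans ?_
    have h6 : (eN D.g v : ℝ) ≤ e := by exact_mod_cast he v hv
    have h7 : (0 : ℝ) ≤ eN D.g v := Nat.cast_nonneg _
    nlinarith
  rw [← Finset.mul_sum, Finset.sum_const, nsmul_eq_mul] at h5
  have he0 : (0 : ℝ) ≤ e := Nat.cast_nonneg _
  by_contra hlt
  push Not at hlt
  by_cases hn5 : n = 2 * e + 5
  · have h13 := h2 (e + 2) (by omega)
    have hn' : (n : ℝ) = 2 * e + 5 := by rw [hn5]; push_cast; ring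
    have h14 : ((n : ℝ) - 1) * (n - 5) * (Verts D.g n).card <
        4 * ((e : ℝ) * ((e : ℝ) + 1)) * (Verts D.g n).card := by
      nlinarith
    have h15 := lt_of_mul_lt_mul_right h14 hpos.le
    rw [hn'] at h15
    nlinarith
  · have h6 : (2 : ℝ) * e + 6 ≤ n := by
      have : 2 * e + 6 ≤ n := by omega
      exact_mod_cast this
    have h7 : (n : ℝ) * (n - 6) * (Verts D.g n).card <
        4 * ((e : ℝ) * ((e : ℝ) + 1)) * (Verts D.g n).card := by
      nlinarith
    have h8 := lt_of_mul_lt_mul_right h7 hpos.le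
    nlinarith

/-- there is a vertex with many edges of the diagram -/
theorem exists_edges (hn : 2 ≤ n)
    (h1 : (n : ℝ) * (n - 6) * (Verts D.g n).card <
      8 * ∑ K ∈ Faces2 D.g n, max (5 - (kF D.g n K : ℝ)) 0)
    (h2 : ∀ m : ℕ, n = 2 * m + 1 → ((n : ℝ) - 1) * (n - 5) * (Verts D.g n).card <
      8 * ∑ K ∈ Faces2 D.g n, max (5 - (kF D.g n K : ℝ)) 0) :
    ∃ v ∈ Verts D.g n, n ≤ 2 * eN D.g v + 4 := by
  by_contra hcon
  push Not at hcon
  have h5 : 5 ≤ n := by
    obtain ⟨v, hv⟩ := D.verts_nonempty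
    have := hcon v hv
    omega
  have h3 : n ≤ 2 * ((n - 5) / 2) + 4 := nr_bound (D := D) hn (fun v hv => by
    have := hcon v hv
    omega) h1 h2
  omega

/-- the pairs that are counted -/
theorem nr_mem {v q : Finset D.ι}
    (hq : open scoped Classical in q ∈ (v.powersetCard 2).filter fun P => AdjP D.g P) :
    ∃ i j, i ≠ j ∧ (∀ k, k ∈ q ↔ k = i ∨ k = j) ∧ i ∈ v ∧ j ∈ v ∧ D.g i j ≠ 0 := by
  classical
  rw [Finset.mem_filter, Finset.mem_powersetCard] at hq
  obtain ⟨⟨hqv, hq2⟩, i, hi, j, hj, hij, hg⟩ := hq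
  refine ⟨i, j, hij, ?_, hqv hi, hqv hj, hg⟩
  have hq' : ({i, j} : Finset D.ι) = q := by
    apply Finset.eq_of_subset_of_card_le
    · intro z hz
      simp only [Finset.mem_insert, Finset.mem_singleton] at hz
      rcases hz with rfl | rfl
      · exact hi
      · exact hj
    · rw [hq2, Finset.card_pair hij]
  intro k
  rw [← hq']
  simp only [Finset.mem_insert, Finset.mem_singleton]

end CoxData

/-- transfer of sets of pairs along a bijection -/
theorem nr_transfer {α β : Type*} (e : α ≃ β) (F : Finset (Finset α)) (R : α → α → Prop)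
    (S : β → β → Prop)
    (hF : ∀ q ∈ F, ∃ i j, i ≠ j ∧ (∀ k, k ∈ q ↔ k = i ∨ k = j) ∧ R i j)
    (hRS : ∀ i j, R i j → S (e i) (e j)) :
    ∃ E : Finset (Finset β), E.card = F.card ∧
      ∀ p ∈ E, ∃ i j, i ≠ j ∧ (∀ k, k ∈ p ↔ k = i ∨ k = j) ∧ S i j := by
  classical
  refine ⟨F.image (fun p => p.map e.toEmbedding),
    Finset.card_image_of_injective _ (Finset.map_injective e.toEmbedding), ?_⟩
  intro p hp
  obtain ⟨q, hq, rfl⟩ := Finset.mem_image.1 hp
  obtain ⟨i, j, hij, hk, hr⟩ := hF q hq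
  refine ⟨e i, e j, fun h => hij (e.injective h), ?_, hRS i j hr⟩
  intro k
  rw [Finset.mem_map]
  constructor
  · rintro ⟨z, hz, rfl⟩
    rcases (hk z).1 hz with rfl | rfl
    · exact Or.inl rfl
    · exact Or.inr rfl
  · rintro (rfl | rfl)
    · exact ⟨i, (hk i).2 (Or.inl rfl), rfl⟩
    · exact ⟨j, (hk j).2 (Or.inr rfl), rfl⟩

/-- **A vertex of a compact Coxeter polytope at which at least `(n - 4) / 2` dihedral angles are not
right angles.** -/
theorem exists_many_angles (hn : 2 ≤ n) (P : CoxeterPolytope n) :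
    ∃ x ∈ Hyp n, (∀ k, lor x (P.u k) ≤ 0) ∧ Nat.card {k // lor x (P.u k) = 0} = n ∧
      ∃ E : Finset (Finset P.ι), (∀ p ∈ E, ∃ i j, i ≠ j ∧ (∀ k, k ∈ p ↔ k = i ∨ k = j) ∧
        lor x (P.u i) = 0 ∧ lor x (P.u j) = 0 ∧ lor (P.u i) (P.u j) ≠ 0) ∧
        n ≤ 2 * E.card + 4 := by
  classical
  obtain ⟨C, e, he⟩ := fl_cone (by omega) P
  obtain ⟨v, hv, hle⟩ := CoxData.exists_edges (D := C.toCoxData) hn (C.count_lt hn)
    (fun m hm => C.count_odd_lt hm (by omega))
  obtain ⟨hvp, hvc⟩ := mem_Verts.1 hv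
  obtain ⟨x, hxH, h1, h2⟩ := fl_point (by omega) P C e he (S := v) hvp
  have hx : ∀ k : P.ι, lor x (P.u k) = 0 ↔ e.symm k ∈ v := by
    intro k
    constructor
    · intro h
      by_contra hk
      have := h2 _ hk
      rw [e.apply_symm_apply] at this
      linarith
    · intro h
      have := h1 _ h
      rwa [e.apply_symm_apply] at this
  obtain ⟨E, hE1, hE2⟩ := nr_transfer (α := C.ι) (β := P.ι) e
    ((v.powersetCard 2).filter fun p => AdjP C.toCoxData.g p)
    (fun i j => i ∈ v ∧ j ∈ v ∧ C.toCoxData.g i j ≠ 0)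
    (fun i j => lor x (P.u i) = 0 ∧ lor x (P.u j) = 0 ∧ lor (P.u i) (P.u j) ≠ 0)
    (fun q hq => CoxData.nr_mem (D := C.toCoxData) hq)
    (fun i j hij => ⟨h1 _ hij.1, h1 _ hij.2.1, by
      rw [← he i, ← he j]
      exact hij.2.2⟩)
  refine ⟨x, hxH, ?_, ?_, E, hE2, ?_⟩
  · intro k
    by_cases hk : e.symm k ∈ v
    · exact ((hx k).2 hk).le
    · have := h2 _ hk
      rw [e.apply_symm_apply] at this
      exact this.le
  · have h5 : {k // lor x (P.u k) = 0} ≃ {a // a ∈ v} := e.symm.subtypeEquiv hx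
    rw [Nat.card_congr h5, Nat.card_eq_fintype_card, Fintype.card_coe]
    exact hvc
  · rw [hE1]
    exact hle

end MP345
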