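import Mathlib
import Pool.Agent.Work.MP_345ef2_irr.Irr3

/-!
# Many non-right dihedral angles, on average over the vertices (MP_345ef2_gt)
-/

set_option autoImplicit false

namespace MP345

open Finset

variable {n : ℕ}

namespace CoxData

variable {D : CoxData n}

/-- the sum over the 2-faces against the sum over the vertices -/
theorem nr_sum (hn : 2 ≤ n) :
    8 * ∑ K ∈ Faces2 D.g n, max (5 - (kF D.g n K : ℝ)) 0 ≤
      4 * ∑ v ∈ Verts D.g n, (eN D.g v : ℝ) * ((eN D.g v : ℝ) + 1) := by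
  classical
  have hsum : ∑ K ∈ Faces2 D.g n, max (5 - (kF D.g n K : ℝ)) 0 ≤
      ∑ v ∈ Verts D.g n, (D.cN v : ℝ) := by
    have h3 : ∑ K ∈ Faces2 D.g n, max (5 - (kF D.g n K : ℝ)) 0 ≤
        ∑ K ∈ Faces2 D.g n, (D.cc K : ℝ) := Finset.sum_le_sum fun K hK => ir_face hK
    have h4 : ∑ K ∈ Faces2 D.g n, (D.cc K : ℝ) = ∑ v ∈ Verts D.g n, (D.cN v : ℝ) := by
      exact_mod_cast D.sum_cc hn
    linarith
  have h5 : ∑ v ∈ Verts D.g n, 2 * (D.cN v : ℝ) ≤
      ∑ v ∈ Verts D.g n, (eN D.g v : ℝ) * ((eN D.g v : ℝ) + 1) :=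
    Finset.sum_le_sum fun v _ => nr_pairs v
  rw [← Finset.mul_sum] at h5
  linarith

end CoxData

/-- the vertices of the polytope `P`: the sets of `n` facets that are the facets through a point of
`P` -/
noncomputable def VSets (P : CoxeterPolytope n) : Finset (Finset P.ι) :=
  open scoped Classical in Finset.univ.filter fun v => v.card = n ∧
    ∃ x ∈ Hyp n, (∀ k, lor x (P.u k) ≤ 0) ∧ ∀ k, lor x (P.u k) = 0 ↔ k ∈ v

/-- the number of the pairs of facets in `v` that are not orthogonal, that is, of the dihedral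
angles at the vertex `v` that are not right angles -/
noncomputable def nra (P : CoxeterPolytope n) (v : Finset P.ι) : ℕ :=
  open scoped Classical in
  ((v.powersetCard 2).filter fun p => ∃ i ∈ p, ∃ j ∈ p, i ≠ j ∧ lor (P.u i) (P.u j) ≠ 0).card

theorem mem_VSets {P : CoxeterPolytope n} {v : Finset P.ι} : v ∈ VSets P ↔ v.card = n ∧
    ∃ x ∈ Hyp n, (∀ k, lor x (P.u k) ≤ 0) ∧ ∀ k, lor x (P.u k) = 0 ↔ k ∈ v := by
  classical
  unfold VSets
  simp only [Finset.mem_filter, Finset.mem_univ, true_and]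

theorem nr_mapmap {α β : Type} (e : α ≃ β) (v : Finset α) :
    (v.map e.toEmbedding).map e.symm.toEmbedding = v := by
  ext z
  simp

theorem nr_mapmap' {α β : Type} (e : α ≃ β) (v : Finset β) :
    (v.map e.symm.toEmbedding).map e.toEmbedding = v := by
  ext z
  simp

theorem nr_v1 (hn : 1 ≤ n) (P : CoxeterPolytope n) (C : Cone n) (e : C.ι ≃ P.ι)
    (he : ∀ i, C.u i = P.u (e i)) {v : Finset C.ι} (hv : v ∈ Verts C.g n) :
    v.map e.toEmbedding ∈ VSets P := by
  classical
  obtain ⟨hvp, hvc⟩ := mem_Verts.1 hv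
  obtain ⟨x, hxH, h1, h2⟩ := fl_point hn P C e he (S := v) hvp
  rw [mem_VSets, Finset.card_map]
  refine ⟨hvc, x, hxH, ?_, ?_⟩
  · intro k
    by_cases hk : e.symm k ∈ v
    · have := h1 _ hk
      rw [e.apply_symm_apply] at this
      exact this.le
    · have := h2 _ hk
      rw [e.apply_symm_apply] at this
      exact this.le
  · intro k
    rw [Finset.mem_map_equiv]
    constructor
    · intro h
      by_contra hk
      have := h2 _ hk
      rw [e.apply_symm_apply] at this
      linarith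
    · intro h
      have := h1 _ h
      rwa [e.apply_symm_apply] at this

theorem nr_v2 (P : CoxeterPolytope n) (C : Cone n) (e : C.ι ≃ P.ι)
    (he : ∀ i, C.u i = P.u (e i)) {w : Finset P.ι} (hw : w ∈ VSets P) :
    w.map e.symm.toEmbedding ∈ Verts C.g n := by
  classical
  obtain ⟨hwc, x, hxH, h1, h2⟩ := mem_VSets.1 hw
  rw [mem_Verts, Finset.card_map]
  refine ⟨C.pd_of_tight (x := x) (by rw [hxH.1]; norm_num) fun i hi => ?_, hwc⟩
  rw [he]
  obtain ⟨j, hj, rfl⟩ := Finset.mem_map.1 hi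
  have : e (e.symm.toEmbedding j) = j := e.apply_symm_apply j
  rw [this]
  exact (h2 j).2 hj

theorem nr_e (P : CoxeterPolytope n) (C : Cone n) (e : C.ι ≃ P.ι)
    (he : ∀ i, C.u i = P.u (e i)) (v : Finset C.ι) :
    nra P (v.map e.toEmbedding) = eN C.g v := by
  classical
  unfold nra eN
  refine (Finset.card_nbij' (fun p => p.map e.toEmbedding) (fun q => q.map e.symm.toEmbedding)
    ?_ ?_ ?_ ?_).symm
  · intro p hp
    simp only [Finset.coe_filter, Finset.mem_powersetCard, Set.mem_ofPred_eq] at hp ⊢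
    obtain ⟨⟨h1, h2⟩, i, hi, j, hj, hij, hg⟩ := hp
    refine ⟨⟨Finset.map_subset_map.2 h1, by rw [Finset.card_map]; exact h2⟩, e i,
      Finset.mem_map_of_mem _ hi, e j, Finset.mem_map_of_mem _ hj, fun h => hij (e.injective h), ?_⟩
    rw [← he, ← he]
    exact hg
  · intro q hq
    simp only [Finset.coe_filter, Finset.mem_powersetCard, Set.mem_ofPred_eq] at hq ⊢
    obtain ⟨⟨h1, h2⟩, i, hi, j, hj, hij, hg⟩ := hq
    refine ⟨⟨?_, by rw [Finset.card_map]; exact h2⟩, e.symm i,
      Finset.mem_map_of_mem _ hi, e.symm j, Finset.mem_map_of_mem _ hj,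
      fun h => hij (e.symm.injective h), ?_⟩
    · have h3 := Finset.map_subset_map (f := e.symm.toEmbedding).2 h1
      rwa [nr_mapmap] at h3
    · unfold Cone.g
      rw [he, he, e.apply_symm_apply, e.apply_symm_apply]
      exact hg
  · intro p _
    exact nr_mapmap e p
  · intro q _
    exact nr_mapmap' e q

/-- **Non-right dihedral angles of compact Coxeter polytopes.** -/
theorem many_angles (hn : 2 ≤ n) (P : CoxeterPolytope n) :
    (∃ v ∈ VSets P, n ≤ 2 * nra P v + 4) ∧
    (n : ℝ) * (n - 6) * (VSets P).card <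
      4 * ∑ v ∈ VSets P, (nra P v : ℝ) * ((nra P v : ℝ) + 1) ∧
    (Odd n → ((n : ℝ) - 1) * (n - 5) * (VSets P).card <
      4 * ∑ v ∈ VSets P, (nra P v : ℝ) * ((nra P v : ℝ) + 1)) := by
  classical
  obtain ⟨C, e, he⟩ := fl_cone (by omega) P
  have hcard : (VSets P).card = (Verts C.g n).card :=
    (Finset.card_nbij' (fun v => v.map e.toEmbedding) (fun w => w.map e.symm.toEmbedding)
      (fun v hv => nr_v1 (by omega) P C e he hv) (fun w hw => nr_v2 P C e he hw)
      (fun v _ => nr_mapmap e v) (fun w _ => nr_mapmap' e w)).symm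
  have hsum : ∑ v ∈ VSets P, (nra P v : ℝ) * ((nra P v : ℝ) + 1) =
      ∑ v ∈ Verts C.g n, (eN C.g v : ℝ) * ((eN C.g v : ℝ) + 1) := by
    symm
    refine Finset.sum_nbij' (fun v => v.map e.toEmbedding) (fun w => w.map e.symm.toEmbedding)
      (fun v hv => nr_v1 (by omega) P C e he hv) (fun w hw => nr_v2 P C e he hw)
      (fun v _ => nr_mapmap e v) (fun w _ => nr_mapmap' e w) ?_
    intro v _
    rw [nr_e P C e he]
  have h0 : 8 * ∑ K ∈ Faces2 C.g n, max (5 - (kF C.g n K : ℝ)) 0 ≤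
      4 * ∑ v ∈ Verts C.g n, (eN C.g v : ℝ) * ((eN C.g v : ℝ) + 1) :=
    CoxData.nr_sum (D := C.toCoxData) hn
  refine ⟨?_, ?_, ?_⟩
  · obtain ⟨v, hv, hle⟩ := CoxData.exists_edges (D := C.toCoxData) hn (C.count_lt hn)
      (fun m hm => C.count_odd_lt hm (by omega))
    refine ⟨(v : Finset C.ι).map e.toEmbedding, nr_v1 (by omega) P C e he hv, ?_⟩
    rw [nr_e P C e he]
    exact hle
  · rw [hcard, hsum]
    exact (C.count_lt hn).trans_le h0
  · rintro ⟨m, hm⟩
    rw [hcard, hsum]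
    exact (C.count_odd_lt hm (by omega)).trans_le h0

end MP345
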