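import Mathlib
import Pool.Agent.Work.MP_345ef2_irr.Irr4

/-!
# The mean number of non-right dihedral angles at a vertex (MP_345ef2_gt)
-/

set_option autoImplicit false

namespace MP345

open Finset

variable {n : ℕ}

/-- the mean number -/
theorem mean_angles (hn : 2 ≤ n) (P : CoxeterPolytope n) :
    ((n : ℝ) - 6) * (VSets P).card < 4 * ∑ v ∈ VSets P, (nra P v : ℝ) := by
  classical
  have h := (many_angles hn P).2.1
  obtain ⟨C, e, he⟩ := fl_cone (by omega) P
  have hle : ∀ v ∈ VSets P, (nra P v : ℝ) * ((nra P v : ℝ) + 1) ≤ (n : ℝ) * (nra P v : ℝ) := by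
    intro v hv
    have h1 := nr_v2 P C e he hv
    have h2 : nra P v = eN C.g (v.map e.symm.toEmbedding) := by
      rw [← nr_e P C e he, nr_mapmap']
    obtain ⟨hp, hc⟩ := mem_Verts.1 h1
    have h3 : eN C.g (v.map e.symm.toEmbedding) + 1 ≤ (v.map e.symm.toEmbedding).card :=
      CoxData.eN_lt (D := C.toCoxData) hp (Finset.card_pos.1 (lt_of_lt_of_eq (show 0 < n by omega) hc.symm))
    rw [hc, ← h2] at h3
    have h4 : (nra P v : ℝ) + 1 ≤ n := by exact_mod_cast h3
    have h5 : (0 : ℝ) ≤ nra P v := Nat.cast_nonneg _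
    nlinarith
  have h6 := Finset.sum_le_sum hle
  rw [← Finset.mul_sum] at h6
  have hn0 : (0 : ℝ) < n := by
    have : 0 < n := by omega
    exact_mod_cast this
  have h7 : (n : ℝ) * (((n : ℝ) - 6) * (VSets P).card) <
      (n : ℝ) * (4 * ∑ v ∈ VSets P, (nra P v : ℝ)) := by
    nlinarith
  exact lt_of_mul_lt_mul_left h7 hn0.le

end MP345
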