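import Mathlib
import Pool.Agent.Work.MP_345ef2_irr.Irr5

/-!
# Local form: the faces of a compact Coxeter polytope (MP_345ef2_gt)

A face of dimension `m` is given by the set `T₀` of the `n - m` facets which contain it; its vertices
are the vertices `v ⊇ T₀`, its 2-faces the 2-faces `K ⊇ T₀`.
-/

set_option autoImplicit false

namespace MP345

open Finset

variable {n : ℕ}

namespace Cone

variable (C : Cone n)

/-- a 2-face has a unique lowest vertex -/
theorem fa_inj (h : E n →ₗ[ℝ] ℝ)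
    (hgen : ∀ v ∈ Verts C.g n, ∀ w ∈ Verts C.g n, h (C.pt v) = h (C.pt w) → v = w) :
    Set.InjOn (fun p : (Σ _ : Finset C.ι, Finset C.ι) => p.1 \ p.2)
      (((Verts C.g n).sigma fun v => (C.up h v).powersetCard 2 : Finset (Σ _ : Finset C.ι, Finset C.ι)) :
        Set (Σ _ : Finset C.ι, Finset C.ι)) := by
  classical
  have hmin : ∀ v ∈ Verts C.g n, ∀ T ∈ (C.up h v).powersetCard 2, ∀ x ∈ Verts C.g n,
      v \ T ⊆ x → h (C.pt v) ≤ h (C.pt x) := by
    intro v hv T hT x hx hKx
    rw [Finset.mem_powersetCard] at hT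
    obtain ⟨hTu, hT2⟩ := hT
    obtain ⟨i, j, hij, rfl⟩ := Finset.card_eq_two.1 hT2
    have hiu : i ∈ C.up h v := hTu (by simp)
    have hju : j ∈ C.up h v := hTu (by simp)
    unfold up at hiu hju
    rw [Finset.mem_filter] at hiu hju
    obtain ⟨hiv, a, hav, hapd, hah⟩ := hiu
    obtain ⟨hjv, b, hbv, hbpd, hbh⟩ := hju
    obtain ⟨hvpd, hvc⟩ := mem_Verts.1 hv
    have hsub : ({i, j} : Finset C.ι) ⊆ v := by
      intro k hk
      simp only [Finset.mem_insert, Finset.mem_singleton] at hk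
      rcases hk with rfl | rfl <;> assumption
    have hKc : (v \ {i, j}).card + 2 = n := by
      have := Finset.card_sdiff_add_card_eq_card hsub
      rw [Finset.card_pair hij] at this
      omega
    refine C.local_min (K := v \ {i, j}) (w1 := insert a (v.erase i))
      (w2 := insert b (v.erase j)) (i := i) (j := j) hKc hvpd hapd hbpd (mem_Verts.1 hx).1
      Finset.sdiff_subset ?_ ?_ hKx hiv hjv ?_ ?_ ?_ ?_ h hah hbh
    · intro k hk
      simp only [Finset.mem_sdiff, Finset.mem_insert, Finset.mem_singleton, not_or] at hk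
      exact Finset.mem_insert_of_mem (Finset.mem_erase.2 ⟨hk.2.1, hk.1⟩)
    · intro k hk
      simp only [Finset.mem_sdiff, Finset.mem_insert, Finset.mem_singleton, not_or] at hk
      exact Finset.mem_insert_of_mem (Finset.mem_erase.2 ⟨hk.2.2, hk.1⟩)
    · intro hh
      rcases Finset.mem_insert.1 hh with h1 | h1
      · exact hav (h1 ▸ hiv)
      · exact Finset.notMem_erase i v h1
    · exact Finset.mem_insert_of_mem (Finset.mem_erase.2 ⟨Ne.symm hij, hjv⟩)
    · exact Finset.mem_insert_of_mem (Finset.mem_erase.2 ⟨hij, hiv⟩)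
    · intro hh
      rcases Finset.mem_insert.1 hh with h1 | h1
      · exact hbv (h1 ▸ hjv)
      · exact Finset.notMem_erase j v h1
  rintro ⟨v, T⟩ hp ⟨v', T'⟩ hp' heq
  simp only [Finset.coe_sigma, Set.mem_sigma_iff, Finset.mem_coe] at hp hp'
  simp only at heq
  have h1 := hmin v hp.1 T hp.2 v' hp'.1 (by rw [heq]; exact Finset.sdiff_subset)
  have h2 := hmin v' hp'.1 T' hp'.2 v hp.1 (by rw [← heq]; exact Finset.sdiff_subset)
  have hvv := hgen v hp.1 v' hp'.1 (le_antisymm h1 h2)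
  subst hvv
  have hT : T ⊆ v := (Finset.mem_powersetCard.1 hp.2).1.trans (Finset.filter_subset _ _)
  have hT' : T' ⊆ v := (Finset.mem_powersetCard.1 hp'.2).1.trans (Finset.filter_subset _ _)
  have : T = T' := by
    rw [← Finset.sdiff_sdiff_eq_self hT, ← Finset.sdiff_sdiff_eq_self hT', heq]
  rw [this]

/-- the pairs of upward directions in a face -/
theorem fa_up (h : E n →ₗ[ℝ] ℝ)
    (hgen : ∀ v ∈ Verts C.g n, ∀ w ∈ Verts C.g n, h (C.pt v) = h (C.pt w) → v = w)
    (T₀ : Finset C.ι) :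
    ∑ v ∈ (Verts C.g n).filter (fun v => T₀ ⊆ v), ((C.up h v \ T₀).card.choose 2) ≤
      ((Faces2 C.g n).filter (fun K => T₀ ⊆ K)).card := by
  classical
  have hcard : (((Verts C.g n).filter (fun v => T₀ ⊆ v)).sigma
      fun v => (C.up h v \ T₀).powersetCard 2).card =
      ∑ v ∈ (Verts C.g n).filter (fun v => T₀ ⊆ v), ((C.up h v \ T₀).card.choose 2) := by
    rw [Finset.card_sigma]
    exact Finset.sum_congr rfl fun v _ => Finset.card_powersetCard _ _
  rw [← hcard]
  apply Finset.card_le_card_of_injOn (fun p => p.1 \ p.2)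
  · rintro ⟨v, T⟩ hp
    rw [Finset.mem_coe, Finset.mem_sigma] at hp
    obtain ⟨hv, hT⟩ := hp
    simp only at hv hT
    rw [Finset.mem_filter] at hv
    rw [Finset.mem_powersetCard] at hT
    have hsub : T ⊆ v := hT.1.trans (Finset.sdiff_subset.trans (Finset.filter_subset _ _))
    have h3 := Finset.card_sdiff_add_card_eq_card hsub
    have hvc := (mem_Verts.1 hv.1).2
    rw [Finset.mem_coe, Finset.mem_filter, mem_Faces2]
    refine ⟨⟨?_, v, hv.1, Finset.sdiff_subset⟩, ?_⟩
    · simp only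
      omega
    · intro z hz
      simp only [Finset.mem_sdiff]
      exact ⟨hv.2 hz, fun hzT => (Finset.mem_sdiff.1 (hT.1 hzT)).2 hz⟩
  · refine (C.fa_inj h hgen).mono ?_
    rintro ⟨v, T⟩ hp
    rw [Finset.mem_coe, Finset.mem_sigma] at hp ⊢
    obtain ⟨hv, hT⟩ := hp
    simp only at hv hT ⊢
    rw [Finset.mem_powersetCard] at hT ⊢
    exact ⟨(Finset.mem_filter.1 hv).1, hT.1.trans Finset.sdiff_subset, hT.2⟩

/-- local form of Nikulin's estimate -/
theorem fa_two (T₀ : Finset C.ι) (hT : ((Verts C.g n).filter (fun v => T₀ ⊆ v)).Nonempty) (A : ℕ)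
    (hA : ∀ a b : ℕ, n - T₀.card ≤ a + b → A ≤ 4 * a.choose 2 + 4 * b.choose 2)
    (hA' : ∀ b : ℕ, n - T₀.card ≤ b → A < 4 * (0 : ℕ).choose 2 + 4 * b.choose 2) :
    A * ((Verts C.g n).filter (fun v => T₀ ⊆ v)).card <
      8 * ((Faces2 C.g n).filter (fun K => T₀ ⊆ K)).card := by
  classical
  obtain ⟨h, hgen⟩ := C.exists_generic
  have h1 := C.fa_up h hgen T₀
  have h2 := C.fa_up (-h) (by
    intro v hv w hw hvw
    apply hgen v hv w hw
    simpa using hvw) T₀
  have hc : ∀ v ∈ (Verts C.g n).filter (fun v => T₀ ⊆ v),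
      n - T₀.card ≤ (C.up h v \ T₀).card + (C.up (-h) v \ T₀).card := by
    intro v hv'
    obtain ⟨hv, hTv⟩ := Finset.mem_filter.1 hv'
    have hcov : v \ T₀ ⊆ (C.up h v \ T₀) ∪ (C.up (-h) v \ T₀) := by
      intro i hi'
      obtain ⟨hi, hiT⟩ := Finset.mem_sdiff.1 hi'
      obtain ⟨j, hj, hpd⟩ := C.exists_other hv hi
      rw [Finset.mem_union, Finset.mem_sdiff, Finset.mem_sdiff]
      rcases le_total (h (C.pt v)) (h (C.pt (insert j (v.erase i)))) with hle | hle
      · left; unfold up; rw [Finset.mem_filter]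
        exact ⟨⟨hi, j, hj, hpd, hle⟩, hiT⟩
      · right; unfold up; rw [Finset.mem_filter]
        refine ⟨⟨hi, j, hj, hpd, ?_⟩, hiT⟩
        simp only [LinearMap.neg_apply]; linarith
    calc n - T₀.card = (v \ T₀).card := by
          rw [Finset.card_sdiff_of_subset hTv, (mem_Verts.1 hv).2]
      _ ≤ _ := Finset.card_le_card hcov
      _ ≤ _ := Finset.card_union_le _ _
  have h3 : ∀ v ∈ (Verts C.g n).filter (fun v => T₀ ⊆ v), A ≤
      4 * ((C.up h v \ T₀).card.choose 2) + 4 * ((C.up (-h) v \ T₀).card.choose 2) :=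
    fun v hv => hA _ _ (hc v hv)
  obtain ⟨v0, hv0', hmax⟩ := Finset.exists_max_image ((Verts C.g n).filter (fun v => T₀ ⊆ v))
    (fun v => h (C.pt v)) hT
  obtain ⟨hv0, hTv0⟩ := Finset.mem_filter.1 hv0'
  have hup : C.up h v0 \ T₀ = ∅ := by
    rw [Finset.eq_empty_iff_forall_notMem]
    intro i hi'
    obtain ⟨hi, hiT⟩ := Finset.mem_sdiff.1 hi'
    unfold up at hi
    rw [Finset.mem_filter] at hi
    obtain ⟨hiv, j, hj, hpd, hle⟩ := hi
    have hmem : insert j (v0.erase i) ∈ Verts C.g n := by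
      refine mem_Verts.2 ⟨hpd, ?_⟩
      rw [Finset.card_insert_of_notMem (fun hh => hj (Finset.mem_of_mem_erase hh)),
        Finset.card_erase_of_mem hiv, (mem_Verts.1 hv0).2]
      have : 0 < n := by
        rw [← (mem_Verts.1 hv0).2]
        exact Finset.card_pos.2 ⟨i, hiv⟩
      omega
    have hmem' : insert j (v0.erase i) ∈ (Verts C.g n).filter (fun v => T₀ ⊆ v) := by
      refine Finset.mem_filter.2 ⟨hmem, fun z hz => Finset.mem_insert_of_mem
        (Finset.mem_erase.2 ⟨fun hh => hiT (hh ▸ hz), hTv0 hz⟩)⟩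
    have := hgen v0 hv0 _ hmem (le_antisymm hle (hmax _ hmem'))
    exact hj (by rw [this]; simp)
  have h4 : A < 4 * ((C.up h v0 \ T₀).card.choose 2) + 4 * ((C.up (-h) v0 \ T₀).card.choose 2) := by
    have h5 := hc v0 hv0'
    rw [hup, Finset.card_empty] at h5 ⊢
    exact hA' _ (by omega)
  calc A * ((Verts C.g n).filter (fun v => T₀ ⊆ v)).card =
        ∑ v ∈ (Verts C.g n).filter (fun v => T₀ ⊆ v), A := by
        rw [Finset.sum_const, smul_eq_mul, mul_comm]
    _ < ∑ v ∈ (Verts C.g n).filter (fun v => T₀ ⊆ v),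
        (4 * ((C.up h v \ T₀).card.choose 2) + 4 * ((C.up (-h) v \ T₀).card.choose 2)) :=
        Finset.sum_lt_sum h3 ⟨v0, hv0', h4⟩
    _ = 4 * ∑ v ∈ (Verts C.g n).filter (fun v => T₀ ⊆ v), ((C.up h v \ T₀).card.choose 2) +
        4 * ∑ v ∈ (Verts C.g n).filter (fun v => T₀ ⊆ v), ((C.up (-h) v \ T₀).card.choose 2) := by
        rw [Finset.sum_add_distrib, Finset.mul_sum, Finset.mul_sum]
    _ ≤ 8 * ((Faces2 C.g n).filter (fun K => T₀ ⊆ K)).card := by omega

end Cone

/-- the numbers of the vertices of the 2-faces of a face -/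
theorem fa_kF {ι : Type*} [Fintype ι] [DecidableEq ι] (g : ι → ι → ℝ) (T₀ : Finset ι)
    (hm : T₀.card + 2 ≤ n) :
    ∑ K ∈ (Faces2 g n).filter (fun K => T₀ ⊆ K), kF g n K =
      (n - T₀.card).choose 2 * ((Verts g n).filter (fun v => T₀ ⊆ v)).card := by
  classical
  have h0 : ∀ K ∈ (Faces2 g n).filter (fun K => T₀ ⊆ K), kF g n K =
      (((Verts g n).filter (fun v => T₀ ⊆ v)).filter (fun v => K ⊆ v)).card := by
    intro K hK
    unfold kF
    congr 1
    ext v
    simp only [Finset.mem_filter]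
    constructor
    · rintro ⟨h1, h2⟩
      exact ⟨⟨h1, (Finset.mem_filter.1 hK).2.trans h2⟩, h2⟩
    · rintro ⟨⟨h1, _⟩, h2⟩
      exact ⟨h1, h2⟩
  rw [Finset.sum_congr rfl h0]
  have h1 := Finset.sum_card_bipartiteAbove_eq_sum_card_bipartiteBelow
    (s := (Faces2 g n).filter (fun K => T₀ ⊆ K)) (t := (Verts g n).filter (fun v => T₀ ⊆ v))
    (fun K S => K ⊆ S)
  unfold Finset.bipartiteAbove Finset.bipartiteBelow at h1
  rw [h1]
  have h2 : ∀ S ∈ (Verts g n).filter (fun v => T₀ ⊆ v),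
      (((Faces2 g n).filter (fun K => T₀ ⊆ K)).filter fun K => K ⊆ S).card =
        (n - T₀.card).choose 2 := by
    intro S hS
    obtain ⟨hSv, hTS⟩ := Finset.mem_filter.1 hS
    have hSc := (mem_Verts.1 hSv).2
    have h3 : (((Faces2 g n).filter (fun K => T₀ ⊆ K)).filter fun K => K ⊆ S).card =
        ((S \ T₀).powersetCard 2).card := by
      refine Finset.card_nbij' (fun K => S \ K) (fun P => S \ P) ?_ ?_ ?_ ?_
      · intro K hK
        simp only [Finset.coe_filter, Set.mem_ofPred_eq, Finset.mem_coe, Finset.mem_powersetCard,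
          Finset.mem_filter, mem_Faces2] at hK ⊢
        obtain ⟨⟨⟨hKc, _⟩, hTK⟩, hKS⟩ := hK
        refine ⟨Finset.sdiff_subset_sdiff le_rfl hTK, ?_⟩
        rw [Finset.card_sdiff_of_subset hKS]
        omega
      · intro P hP
        simp only [Finset.coe_filter, Set.mem_ofPred_eq, Finset.mem_coe, Finset.mem_powersetCard,
          Finset.mem_filter, mem_Faces2] at hP ⊢
        have hPS : P ⊆ S := hP.1.trans Finset.sdiff_subset
        refine ⟨⟨⟨?_, S, hSv, Finset.sdiff_subset⟩, ?_⟩, Finset.sdiff_subset⟩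
        · rw [Finset.card_sdiff_of_subset hPS]
          omega
        · intro z hz
          exact Finset.mem_sdiff.2 ⟨hTS hz, fun hzP => (Finset.mem_sdiff.1 (hP.1 hzP)).2 hz⟩
      · intro K hK
        simp only [Finset.coe_filter, Set.mem_ofPred_eq] at hK
        exact Finset.sdiff_sdiff_eq_self hK.2
      · intro P hP
        simp only [Finset.mem_coe, Finset.mem_powersetCard] at hP
        exact Finset.sdiff_sdiff_eq_self (hP.1.trans Finset.sdiff_subset)
    rw [h3, Finset.card_powersetCard, Finset.card_sdiff_of_subset hTS, hSc]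
  rw [Finset.sum_congr rfl h2, Finset.sum_const, smul_eq_mul, mul_comm]

end MP345
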