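import Mathlib
import Pool.Agent.Work.MP_345ef2_irr.Face

/-!
# Local form: pairs of facets in common components, outside the set `T` of the facets of a face
-/

set_option autoImplicit false

namespace MP345

open Finset

variable {n : ℕ}

open scoped Classical in
/-- number of the edges of the Coxeter diagram inside `v` and not inside `T` -/
noncomputable def eT {ι : Type*} [DecidableEq ι] (g : ι → ι → ℝ) (T v : Finset ι) : ℕ :=
  ((v.powersetCard 2).filter fun P => AdjP g P ∧ ¬ P ⊆ T).card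

namespace CoxData

/-- number of the pairs outside `T` in one component of `v` -/
noncomputable def cT (D : CoxData n) (T v : Finset D.ι) : ℕ :=
  open scoped Classical in (((v \ T).powersetCard 2).filter fun P => D.SP v P).card

/-- the number of the components which are not contained in `T` -/
noncomputable def kT (D : CoxData n) (T v : Finset D.ι) : ℕ :=
  open scoped Classical in ((v \ T).image (D.cmp v)).card

variable {D : CoxData n}

theorem fa_cc (T₀ : Finset D.ι) (hn : 2 ≤ n) :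
    ∑ K ∈ (Faces2 D.g n).filter (fun K => T₀ ⊆ K), D.cc K =
      ∑ v ∈ (Verts D.g n).filter (fun v => T₀ ⊆ v), D.cT T₀ v := by
  classical
  have h0 : ∀ K ∈ (Faces2 D.g n).filter (fun K => T₀ ⊆ K), D.cc K =
      (((Verts D.g n).filter (fun v => T₀ ⊆ v)).filter
        (fun v => K ⊆ v ∧ D.SP v (v \ K))).card := by
    intro K hK
    unfold cc
    congr 1
    ext v
    simp only [Finset.mem_filter]
    constructor
    · rintro ⟨h1, h2, h3⟩
      exact ⟨⟨h1, (Finset.mem_filter.1 hK).2.trans h2⟩, h2, h3⟩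
    · rintro ⟨⟨h1, _⟩, h2, h3⟩
      exact ⟨h1, h2, h3⟩
  rw [Finset.sum_congr rfl h0]
  have h1 := Finset.sum_card_bipartiteAbove_eq_sum_card_bipartiteBelow
    (s := (Faces2 D.g n).filter (fun K => T₀ ⊆ K)) (t := (Verts D.g n).filter (fun v => T₀ ⊆ v))
    (fun K v => K ⊆ v ∧ D.SP v (v \ K))
  unfold Finset.bipartiteAbove Finset.bipartiteBelow at h1
  rw [h1]
  refine Finset.sum_congr rfl fun v hv => ?_
  obtain ⟨hvV, hTv⟩ := Finset.mem_filter.1 hv
  have hvc := (mem_Verts.1 hvV).2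
  unfold cT
  refine Finset.card_bij (fun K _ => v \ K) ?_ ?_ ?_
  · intro K hK
    rw [Finset.mem_filter, Finset.mem_filter, mem_Faces2] at hK
    rw [Finset.mem_filter, Finset.mem_powersetCard]
    obtain ⟨⟨⟨hKc, _⟩, hTK⟩, hKv, hsp⟩ := hK
    refine ⟨⟨Finset.sdiff_subset_sdiff le_rfl hTK, ?_⟩, hsp⟩
    rw [Finset.card_sdiff_of_subset hKv]; omega
  · intro K hK K' hK' h
    rw [Finset.mem_filter] at hK hK'
    rw [← Finset.sdiff_sdiff_eq_self hK.2.1, ← Finset.sdiff_sdiff_eq_self hK'.2.1, h]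
  · intro P hP
    rw [Finset.mem_filter, Finset.mem_powersetCard] at hP
    have hPv : P ⊆ v := hP.1.1.trans Finset.sdiff_subset
    refine ⟨v \ P, ?_, Finset.sdiff_sdiff_eq_self hPv⟩
    rw [Finset.mem_filter, Finset.mem_filter, mem_Faces2]
    refine ⟨⟨⟨?_, v, hvV, Finset.sdiff_subset⟩, ?_⟩, Finset.sdiff_subset, ?_⟩
    · rw [Finset.card_sdiff_of_subset hPv]; omega
    · intro z hz
      exact Finset.mem_sdiff.2 ⟨hTv hz, fun hzP => (Finset.mem_sdiff.1 (hP.1.1 hzP)).2 hz⟩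
    · rw [Finset.sdiff_sdiff_eq_self hPv]; exact hP.2

theorem two_cT (T v : Finset D.ι) :
    (2 * (D.cT T v : ℝ)) = ∑ i ∈ v \ T, (((D.cmp v i \ T).card : ℝ) - 1) := by
  classical
  have h1 := sum_pairs (v \ T) (fun P => if D.SP v P then (1 : ℝ) else 0)
  have h2 : ∑ P ∈ (v \ T).powersetCard 2, (if D.SP v P then (1 : ℝ) else 0) = D.cT T v := by
    unfold cT
    rw [Finset.sum_ite, Finset.sum_const_zero, add_zero, Finset.sum_const, nsmul_eq_mul, mul_one]
  rw [h2] at h1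
  rw [← h1]
  refine Finset.sum_congr rfl fun i hi => ?_
  obtain ⟨hiv, hiT⟩ := Finset.mem_sdiff.1 hi
  have h3 : ∑ j ∈ (v \ T).erase i, (if D.SP v {i, j} then (1 : ℝ) else 0) =
      (((D.cmp v i \ T).erase i).card : ℝ) := by
    rw [← Finset.sum_filter, Finset.sum_const, nsmul_eq_mul, mul_one]
    congr 2
    ext j
    rw [Finset.mem_filter, Finset.mem_erase, Finset.mem_erase, Finset.mem_sdiff,
      Finset.mem_sdiff, mem_cmp]
    constructor
    · rintro ⟨⟨h4, h5, h5'⟩, h6⟩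
      exact ⟨h4, ⟨h5, (sp_iff h4.symm).1 h6⟩, h5'⟩
    · rintro ⟨h4, ⟨h5, h6⟩, h5'⟩
      exact ⟨⟨h4, h5, h5'⟩, (sp_iff h4.symm).2 h6⟩
  have hmem : i ∈ D.cmp v i \ T := Finset.mem_sdiff.2 ⟨self_cmp hiv, hiT⟩
  rw [h3, Finset.card_erase_of_mem hmem]
  have h4 : 1 ≤ (D.cmp v i \ T).card := Finset.card_pos.2 ⟨i, hmem⟩
  push_cast [h4]
  ring

theorem fa_inv (T v : Finset D.ι) :
    ∑ i ∈ v \ T, (1 : ℝ) / (D.cmp v i \ T).card = D.kT T v := by
  classical
  unfold kT
  rw [← Finset.sum_fiberwise_of_maps_to (s := v \ T) (t := (v \ T).image (D.cmp v))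
    (g := D.cmp v) (fun x hx => Finset.mem_image_of_mem _ hx)]
  rw [Finset.card_eq_sum_ones]
  push_cast
  refine Finset.sum_congr rfl fun S hS => ?_
  obtain ⟨x, hx, rfl⟩ := Finset.mem_image.1 hS
  have h2 : (v \ T).filter (fun j => D.cmp v j = D.cmp v x) = D.cmp v x \ T := by
    ext j
    rw [Finset.mem_filter, Finset.mem_sdiff, Finset.mem_sdiff]
    constructor
    · rintro ⟨⟨h3, h3'⟩, h4⟩
      rw [← h4]
      exact ⟨self_cmp h3, h3'⟩
    · rintro ⟨h3, h3'⟩
      exact ⟨⟨(mem_cmp.1 h3).1, h3'⟩, cmp_eq h3⟩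
  have h3 : ∑ i ∈ (v \ T).filter (fun j => D.cmp v j = D.cmp v x),
      (1 : ℝ) / (D.cmp v i \ T).card =
      ∑ i ∈ (v \ T).filter (fun j => D.cmp v j = D.cmp v x),
        (1 : ℝ) / (D.cmp v x \ T).card := by
    refine Finset.sum_congr rfl fun i hi => ?_
    rw [(Finset.mem_filter.1 hi).2]
  rw [h3, h2, Finset.sum_const, nsmul_eq_mul]
  have h4 : (0 : ℝ) < (D.cmp v x \ T).card := by
    exact_mod_cast Finset.card_pos.2
      ⟨x, Finset.mem_sdiff.2 ⟨self_cmp (Finset.mem_sdiff.1 hx).1, (Finset.mem_sdiff.1 hx).2⟩⟩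
  field_simp

theorem fa_room (T : Finset D.ι) {v : Finset D.ι} {i : D.ι} (_hi : i ∈ v) :
    (D.cmp v i \ T).card + D.kT T v ≤ (v \ T).card + 1 := by
  classical
  have hsub : D.cmp v i \ T ⊆ v \ T :=
    Finset.sdiff_subset_sdiff (fun j hj => (mem_cmp.1 hj).1) le_rfl
  have h1 : (v \ T).image (D.cmp v) ⊆
      insert (D.cmp v i) (((v \ T) \ (D.cmp v i \ T)).image (D.cmp v)) := by
    intro S hS
    obtain ⟨x, hx, rfl⟩ := Finset.mem_image.1 hS
    by_cases h : x ∈ D.cmp v i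
    · rw [cmp_eq h]
      exact Finset.mem_insert_self _ _
    · exact Finset.mem_insert_of_mem (Finset.mem_image_of_mem _
        (Finset.mem_sdiff.2 ⟨hx, fun hh => h (Finset.mem_sdiff.1 hh).1⟩))
  have h2 : D.kT T v ≤ ((v \ T) \ (D.cmp v i \ T)).card + 1 := by
    unfold kT
    refine (Finset.card_le_card h1).trans ((Finset.card_insert_le _ _).trans ?_)
    exact Nat.add_le_add_right Finset.card_image_le 1
  rw [Finset.card_sdiff_of_subset hsub] at h2
  have h3 := Finset.card_le_card hsub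
  omega

theorem fa_forest {T v : Finset D.ι} (hTv : T ⊆ v) :
    (v \ T).card ≤ D.kT T v + eT D.g T v := by
  classical
  let rep : Finset D.ι → Finset D.ι := fun S => if h : (S \ T).Nonempty then {h.choose} else ∅
  let R : Finset D.ι := ((v \ T).image (D.cmp v)).biUnion rep
  have hrep : ∀ S : Finset D.ι, (rep S).card ≤ 1 := by
    intro S
    by_cases h : (S \ T).Nonempty
    · simp only [rep, dif_pos h, Finset.card_singleton, le_refl]
    · simp only [rep, dif_neg h, Finset.card_empty, zero_le]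
  have hRc : R.card ≤ D.kT T v := by
    refine Finset.card_biUnion_le.trans ?_
    refine (Finset.sum_le_sum fun S _ => hrep S).trans ?_
    rw [Finset.sum_const, smul_eq_mul, mul_one]
    exact le_rfl
  have hne : ∀ x ∈ v \ T, (D.cmp v x \ T).Nonempty := fun x hx =>
    ⟨x, Finset.mem_sdiff.2 ⟨self_cmp (Finset.mem_sdiff.1 hx).1, (Finset.mem_sdiff.1 hx).2⟩⟩
  have hchoose : ∀ x ∈ v \ T, ∃ r, r ∈ D.cmp v x ∧ r ∈ R := by
    intro x hx
    have h1 := hne x hx
    refine ⟨h1.choose, (Finset.mem_sdiff.1 h1.choose_spec).1, ?_⟩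
    refine Finset.mem_biUnion.2 ⟨D.cmp v x, Finset.mem_image_of_mem _ hx, ?_⟩
    simp only [rep, dif_pos h1, Finset.mem_singleton]
  have hRv : R ⊆ v := by
    intro z hz
    obtain ⟨S, hS, hz⟩ := Finset.mem_biUnion.1 hz
    obtain ⟨x, hx, rfl⟩ := Finset.mem_image.1 hS
    have h1 := hne x hx
    simp only [rep, dif_pos h1, Finset.mem_singleton] at hz
    rw [hz]
    exact (mem_cmp.1 (Finset.mem_sdiff.1 h1.choose_spec).1).1
  have h2 := nr_grow v _ (T ∪ R) (Finset.union_subset hTv hRv) rfl (fun x hx => by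
    by_cases hxT : x ∈ T
    · exact ⟨x, Finset.mem_union_left _ hxT, Relation.ReflTransGen.refl⟩
    · obtain ⟨r, hr1, hr2⟩ := hchoose x (Finset.mem_sdiff.2 ⟨hx, hxT⟩)
      exact ⟨r, Finset.mem_union_right _ hr2, (mem_cmp.1 hr1).2.symm⟩)
  have h3 : ((v.powersetCard 2).filter fun P => AdjP D.g P ∧ ¬ P ⊆ T ∪ R).card ≤
      eT D.g T v := by
    unfold eT
    refine Finset.card_le_card fun P hP => ?_
    rw [Finset.mem_filter] at hP ⊢
    exact ⟨hP.1, hP.2.1, fun hs => hP.2.2 (hs.trans Finset.subset_union_left)⟩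
  have h4 : (T ∪ R).card ≤ T.card + D.kT T v :=
    (Finset.card_union_le _ _).trans (Nat.add_le_add_left hRc _)
  have h5 := Finset.card_sdiff_add_card_eq_card hTv
  omega

/-- the pairs outside `T` in common components against the edges which are not inside `T` -/
theorem fa_pairs {T v : Finset D.ι} (hTv : T ⊆ v) :
    2 * (D.cT T v : ℝ) ≤ (eT D.g T v : ℝ) * ((eT D.g T v : ℝ) + 1) := by
  classical
  have hf := fa_forest hTv
  have hf' : ((v \ T).card : ℝ) - D.kT T v ≤ eT D.g T v := by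
    have : ((v \ T).card : ℝ) ≤ D.kT T v + eT D.g T v := by exact_mod_cast hf
    linarith
  have hk : (D.kT T v : ℝ) ≤ (v \ T).card := by
    have : D.kT T v ≤ (v \ T).card := by
      unfold kT
      exact Finset.card_image_le
    exact_mod_cast this
  rw [two_cT]
  have h1 : ∀ i ∈ v \ T, ((D.cmp v i \ T).card : ℝ) - 1 ≤
      (((v \ T).card : ℝ) - D.kT T v + 1) * (1 - (1 : ℝ) / (D.cmp v i \ T).card) := by
    intro i hi
    obtain ⟨hiv, hiT⟩ := Finset.mem_sdiff.1 hi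
    have hr : ((D.cmp v i \ T).card : ℝ) + D.kT T v ≤ (v \ T).card + 1 := by
      exact_mod_cast fa_room T hiv
    have hc1 : (1 : ℝ) ≤ (D.cmp v i \ T).card := by
      exact_mod_cast Finset.card_pos.2 ⟨i, Finset.mem_sdiff.2 ⟨self_cmp hiv, hiT⟩⟩
    have h2 : ((D.cmp v i \ T).card : ℝ) - 1 =
        ((D.cmp v i \ T).card : ℝ) * (1 - (1 : ℝ) / (D.cmp v i \ T).card) := by
      field_simp
    rw [h2]
    refine mul_le_mul_of_nonneg_right (by linarith) ?_
    rw [sub_nonneg, div_le_one (by linarith)]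
    exact hc1
  refine (Finset.sum_le_sum h1).trans ?_
  rw [← Finset.mul_sum, Finset.sum_sub_distrib, fa_inv, Finset.sum_const, nsmul_eq_mul, mul_one]
  have h0 : (0 : ℝ) ≤ ((v \ T).card : ℝ) - D.kT T v := by linarith
  nlinarith

/-- the sum over the 2-faces of a face against the sum over its vertices -/
theorem fa_sum (T₀ : Finset D.ι) (hn : 2 ≤ n) :
    8 * ∑ K ∈ (Faces2 D.g n).filter (fun K => T₀ ⊆ K), max (5 - (kF D.g n K : ℝ)) 0 ≤
      4 * ∑ v ∈ (Verts D.g n).filter (fun v => T₀ ⊆ v),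
        (eT D.g T₀ v : ℝ) * ((eT D.g T₀ v : ℝ) + 1) := by
  classical
  have hsum : ∑ K ∈ (Faces2 D.g n).filter (fun K => T₀ ⊆ K), max (5 - (kF D.g n K : ℝ)) 0 ≤
      ∑ v ∈ (Verts D.g n).filter (fun v => T₀ ⊆ v), (D.cT T₀ v : ℝ) := by
    have h3 : ∑ K ∈ (Faces2 D.g n).filter (fun K => T₀ ⊆ K), max (5 - (kF D.g n K : ℝ)) 0 ≤
        ∑ K ∈ (Faces2 D.g n).filter (fun K => T₀ ⊆ K), (D.cc K : ℝ) :=
      Finset.sum_le_sum fun K hK => ir_face (Finset.mem_filter.1 hK).1
    have h4 : ∑ K ∈ (Faces2 D.g n).filter (fun K => T₀ ⊆ K), (D.cc K : ℝ) =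
        ∑ v ∈ (Verts D.g n).filter (fun v => T₀ ⊆ v), (D.cT T₀ v : ℝ) := by
      exact_mod_cast fa_cc T₀ hn
    linarith
  have h5 : ∑ v ∈ (Verts D.g n).filter (fun v => T₀ ⊆ v), 2 * (D.cT T₀ v : ℝ) ≤
      ∑ v ∈ (Verts D.g n).filter (fun v => T₀ ⊆ v),
        (eT D.g T₀ v : ℝ) * ((eT D.g T₀ v : ℝ) + 1) :=
    Finset.sum_le_sum fun v hv => fa_pairs (Finset.mem_filter.1 hv).2
  rw [← Finset.mul_sum] at h5
  linarith

end CoxData

end MP345
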