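import Mathlib
import Pool.Agent.Work.MP_345ef2_irr.Face2

/-!
# Non-right dihedral angles at the vertices of a face of a compact Coxeter polytope
-/

set_option autoImplicit false

namespace MP345

open Finset

variable {n : ℕ}

namespace Cone

variable (C : Cone n)

/-- the count in a face -/
theorem fa_lt (T₀ : Finset C.ι) (hT : ((Verts C.g n).filter (fun v => T₀ ⊆ v)).Nonempty)
    (hm : T₀.card + 2 ≤ n) :
    ((n : ℝ) - T₀.card) * ((n : ℝ) - T₀.card - 6) *
        ((Verts C.g n).filter (fun v => T₀ ⊆ v)).card <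
      8 * ∑ K ∈ (Faces2 C.g n).filter (fun K => T₀ ⊆ K), max (5 - (kF C.g n K : ℝ)) 0 := by
  obtain ⟨m, hmn⟩ : ∃ m, n = T₀.card + m := ⟨n - T₀.card, by omega⟩
  have hnm : n - T₀.card = m := by omega
  have hm2 : 2 ≤ m := by omega
  have h1 := C.fa_two T₀ hT (m * (m - 2)) (fun a b h => num_le hm2 (by omega))
    (fun b h => num_lt hm2 (by omega))
  have h2 := fa_kF (n := n) C.g T₀ hm
  rw [hnm] at h2
  have hr : (n : ℝ) - T₀.card = m := by
    have : (n : ℝ) = T₀.card + m := by exact_mod_cast hmn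
    linarith
  rw [hr]
  have h1' : (m : ℝ) * (m - 2) * ((Verts C.g n).filter (fun v => T₀ ⊆ v)).card <
      8 * ((Faces2 C.g n).filter (fun K => T₀ ⊆ K)).card := by
    have : ((m * (m - 2) * ((Verts C.g n).filter (fun v => T₀ ⊆ v)).card : ℕ) : ℝ) <
        ((8 * ((Faces2 C.g n).filter (fun K => T₀ ⊆ K)).card : ℕ) : ℝ) := by exact_mod_cast h1
    push_cast [Nat.cast_sub hm2] at this
    linarith
  have h2' : ∑ K ∈ (Faces2 C.g n).filter (fun K => T₀ ⊆ K), (kF C.g n K : ℝ) =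
      m * (m - 1) / 2 * ((Verts C.g n).filter (fun v => T₀ ⊆ v)).card := by
    have h3 : ((∑ K ∈ (Faces2 C.g n).filter (fun K => T₀ ⊆ K), kF C.g n K : ℕ) : ℝ) =
        ((m.choose 2 * ((Verts C.g n).filter (fun v => T₀ ⊆ v)).card : ℕ) : ℝ) := by rw [h2]
    push_cast at h3
    rw [h3, Nat.cast_choose_two]
  have h4 : ∑ K ∈ (Faces2 C.g n).filter (fun K => T₀ ⊆ K), (5 - (kF C.g n K : ℝ)) ≤
      ∑ K ∈ (Faces2 C.g n).filter (fun K => T₀ ⊆ K), max (5 - (kF C.g n K : ℝ)) 0 :=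
    Finset.sum_le_sum fun _ _ => le_max_left _ _
  rw [Finset.sum_sub_distrib, h2', Finset.sum_const, nsmul_eq_mul] at h4
  nlinarith

/-- the count in a face of odd dimension -/
theorem fa_odd_lt (T₀ : Finset C.ι) (hT : ((Verts C.g n).filter (fun v => T₀ ⊆ v)).Nonempty)
    {k : ℕ} (hk : n = T₀.card + (2 * k + 1)) (hk1 : 1 ≤ k) :
    ((n : ℝ) - T₀.card - 1) * ((n : ℝ) - T₀.card - 5) *
        ((Verts C.g n).filter (fun v => T₀ ⊆ v)).card <
      8 * ∑ K ∈ (Faces2 C.g n).filter (fun K => T₀ ⊆ K), max (5 - (kF C.g n K : ℝ)) 0 := by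
  have h1 := C.fa_two T₀ hT ((2 * k) ^ 2) (fun a b h => num_odd_le (by omega))
    (fun b h => num_odd_lt hk1 (by omega))
  have h2 := fa_kF (n := n) C.g T₀ (by omega)
  have hnm : n - T₀.card = 2 * k + 1 := by omega
  rw [hnm] at h2
  have hr : (n : ℝ) - T₀.card = 2 * k + 1 := by
    have : (n : ℝ) = T₀.card + (2 * k + 1) := by exact_mod_cast hk
    linarith
  rw [hr]
  have h1' : (2 * (k : ℝ)) ^ 2 * ((Verts C.g n).filter (fun v => T₀ ⊆ v)).card <
      8 * ((Faces2 C.g n).filter (fun K => T₀ ⊆ K)).card := by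
    exact_mod_cast h1
  have h2' : ∑ K ∈ (Faces2 C.g n).filter (fun K => T₀ ⊆ K), (kF C.g n K : ℝ) =
      (2 * k + 1) * (2 * k) / 2 * ((Verts C.g n).filter (fun v => T₀ ⊆ v)).card := by
    have h3 : ((∑ K ∈ (Faces2 C.g n).filter (fun K => T₀ ⊆ K), kF C.g n K : ℕ) : ℝ) =
        (((2 * k + 1).choose 2 * ((Verts C.g n).filter (fun v => T₀ ⊆ v)).card : ℕ) : ℝ) := by
      rw [h2]
    rw [Nat.cast_mul, Nat.cast_choose_two, Nat.cast_sum] at h3
    rw [h3]
    push_cast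
    ring
  have h4 : ∑ K ∈ (Faces2 C.g n).filter (fun K => T₀ ⊆ K), (5 - (kF C.g n K : ℝ)) ≤
      ∑ K ∈ (Faces2 C.g n).filter (fun K => T₀ ⊆ K), max (5 - (kF C.g n K : ℝ)) 0 :=
    Finset.sum_le_sum fun _ _ => le_max_left _ _
  rw [Finset.sum_sub_distrib, h2', Finset.sum_const, nsmul_eq_mul] at h4
  nlinarith

/-- a vertex of a face with many edges that are not inside the set of the facets of the face -/
theorem fa_exists (hn : 2 ≤ n) (T₀ : Finset C.ι)
    (hT : ((Verts C.g n).filter (fun v => T₀ ⊆ v)).Nonempty) (hm : T₀.card + 2 ≤ n) :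
    ∃ v ∈ (Verts C.g n).filter (fun v => T₀ ⊆ v), n ≤ T₀.card + 2 * eT C.g T₀ v + 4 := by
  by_contra hcon
  push Not at hcon
  have hpos : (0 : ℝ) < ((Verts C.g n).filter (fun v => T₀ ⊆ v)).card := by
    exact_mod_cast Finset.card_pos.2 hT
  have h0 : 8 * ∑ K ∈ (Faces2 C.g n).filter (fun K => T₀ ⊆ K), max (5 - (kF C.g n K : ℝ)) 0 ≤
      4 * ∑ v ∈ (Verts C.g n).filter (fun v => T₀ ⊆ v),
        (eT C.g T₀ v : ℝ) * ((eT C.g T₀ v : ℝ) + 1) :=
    CoxData.fa_sum (D := C.toCoxData) T₀ hn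
  have hbound : ∀ B : ℝ, (∀ v ∈ (Verts C.g n).filter (fun v => T₀ ⊆ v),
      4 * ((eT C.g T₀ v : ℝ) * ((eT C.g T₀ v : ℝ) + 1)) ≤ B) →
      4 * ∑ v ∈ (Verts C.g n).filter (fun v => T₀ ⊆ v),
        (eT C.g T₀ v : ℝ) * ((eT C.g T₀ v : ℝ) + 1) ≤
      B * ((Verts C.g n).filter (fun v => T₀ ⊆ v)).card := by
    intro B hB
    rw [Finset.mul_sum]
    refine (Finset.sum_le_sum hB).trans ?_
    rw [Finset.sum_const, nsmul_eq_mul, mul_comm]
  obtain ⟨v0, hv0⟩ := hT
  have h5 := hcon v0 hv0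
  obtain ⟨m, hmn⟩ : ∃ m, n = T₀.card + m := ⟨n - T₀.card, by omega⟩
  have hr : (n : ℝ) - T₀.card = m := by
    have : (n : ℝ) = T₀.card + m := by exact_mod_cast hmn
    linarith
  rcases Nat.even_or_odd' m with ⟨k, hk | hk⟩
  · have h1 := C.fa_lt T₀ ⟨v0, hv0⟩ hm
    rw [hr] at h1
    have h2 := hbound ((m : ℝ) * (m - 6)) (fun v hv => by
      have h6 := hcon v hv
      have h7 : 2 * eT C.g T₀ v + 6 ≤ m := by omega
      have h8 : 2 * (eT C.g T₀ v : ℝ) + 6 ≤ m := by exact_mod_cast h7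
      have h9 : (0 : ℝ) ≤ eT C.g T₀ v := Nat.cast_nonneg _
      nlinarith)
    linarith
  · have hk1 : 1 ≤ k := by omega
    have h1 := C.fa_odd_lt T₀ ⟨v0, hv0⟩ (k := k) (by omega) hk1
    rw [hr] at h1
    have h2 := hbound (((m : ℝ) - 1) * (m - 5)) (fun v hv => by
      have h6 := hcon v hv
      have h7 : 2 * eT C.g T₀ v + 5 ≤ m := by omega
      have h8 : 2 * (eT C.g T₀ v : ℝ) + 5 ≤ m := by exact_mod_cast h7
      have h9 : (0 : ℝ) ≤ eT C.g T₀ v := Nat.cast_nonneg _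
      nlinarith)
    linarith

end Cone

/-- the vertices of the face of the polytope `P` that is the intersection of the facets in `T` -/
noncomputable def VFace (P : CoxeterPolytope n) (T : Finset P.ι) : Finset (Finset P.ι) :=
  open scoped Classical in (VSets P).filter fun v => T ⊆ v

/-- the number of the pairs of facets in `v`, not both in `T`, that are not orthogonal -/
noncomputable def nraT (P : CoxeterPolytope n) (T v : Finset P.ι) : ℕ :=
  open scoped Classical in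
  ((v.powersetCard 2).filter fun p =>
    (∃ i ∈ p, ∃ j ∈ p, i ≠ j ∧ lor (P.u i) (P.u j) ≠ 0) ∧ ¬ p ⊆ T).card

theorem mem_VFace {P : CoxeterPolytope n} {T v : Finset P.ι} :
    v ∈ VFace P T ↔ v ∈ VSets P ∧ T ⊆ v := by
  classical
  unfold VFace
  simp only [Finset.mem_filter]

theorem ft_e (P : CoxeterPolytope n) (C : Cone n) (e : C.ι ≃ P.ι)
    (he : ∀ i, C.u i = P.u (e i)) (T v : Finset C.ι) :
    nraT P (T.map e.toEmbedding) (v.map e.toEmbedding) = eT C.g T v := by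
  classical
  unfold nraT eT
  refine (Finset.card_nbij' (fun p => p.map e.toEmbedding) (fun q => q.map e.symm.toEmbedding)
    ?_ ?_ ?_ ?_).symm
  · intro p hp
    simp only [Finset.coe_filter, Finset.mem_powersetCard, Set.mem_ofPred_eq] at hp ⊢
    obtain ⟨⟨h1, h2⟩, ⟨i, hi, j, hj, hij, hg⟩, hT⟩ := hp
    refine ⟨⟨Finset.map_subset_map.2 h1, by rw [Finset.card_map]; exact h2⟩, ⟨e i,
      Finset.mem_map_of_mem _ hi, e j, Finset.mem_map_of_mem _ hj,
      fun h => hij (e.injective h), ?_⟩, fun hs => hT (Finset.map_subset_map.1 hs)⟩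
    rw [← he, ← he]
    exact hg
  · intro q hq
    simp only [Finset.coe_filter, Finset.mem_powersetCard, Set.mem_ofPred_eq] at hq ⊢
    obtain ⟨⟨h1, h2⟩, ⟨i, hi, j, hj, hij, hg⟩, hT⟩ := hq
    refine ⟨⟨?_, by rw [Finset.card_map]; exact h2⟩, ⟨e.symm i,
      Finset.mem_map_of_mem _ hi, e.symm j, Finset.mem_map_of_mem _ hj,
      fun h => hij (e.symm.injective h), ?_⟩, ?_⟩
    · have h3 := Finset.map_subset_map (f := e.symm.toEmbedding).2 h1
      rwa [nr_mapmap] at h3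
    · unfold Cone.g
      rw [he, he, e.apply_symm_apply, e.apply_symm_apply]
      exact hg
    · intro hs
      apply hT
      have h3 := Finset.map_subset_map (f := e.toEmbedding).2 hs
      rwa [nr_mapmap'] at h3
  · intro p _
    exact nr_mapmap e p
  · intro q _
    exact nr_mapmap' e q

/-- **Non-right dihedral angles at the vertices of a face.** -/
theorem face_angles (hn : 2 ≤ n) (P : CoxeterPolytope n) (T : Finset P.ι)
    (hT : (VFace P T).Nonempty) (hm : T.card + 2 ≤ n) :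
    (∃ v ∈ VFace P T, n ≤ T.card + 2 * nraT P T v + 4) ∧
    ((n : ℝ) - T.card) * ((n : ℝ) - T.card - 6) * (VFace P T).card <
      4 * ∑ v ∈ VFace P T, (nraT P T v : ℝ) * ((nraT P T v : ℝ) + 1) ∧
    (Odd (n - T.card) → ((n : ℝ) - T.card - 1) * ((n : ℝ) - T.card - 5) * (VFace P T).card <
      4 * ∑ v ∈ VFace P T, (nraT P T v : ℝ) * ((nraT P T v : ℝ) + 1)) := by
  classical
  obtain ⟨C, e, he⟩ := fl_cone (by omega) P
  obtain ⟨T₀, rfl⟩ : ∃ T₀ : Finset C.ι, T = T₀.map e.toEmbedding :=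
    ⟨T.map e.symm.toEmbedding, (nr_mapmap' e T).symm⟩
  rw [Finset.card_map] at hm
  simp only [Finset.card_map]
  have hv1 : ∀ v ∈ (Verts C.g n).filter (fun v => T₀ ⊆ v),
      v.map e.toEmbedding ∈ VFace P (T₀.map e.toEmbedding) := by
    intro v hv
    obtain ⟨h1, h2⟩ := Finset.mem_filter.1 hv
    exact mem_VFace.2 ⟨nr_v1 (by omega) P C e he h1, Finset.map_subset_map.2 h2⟩
  have hv2 : ∀ w ∈ VFace P (T₀.map e.toEmbedding),
      w.map e.symm.toEmbedding ∈ (Verts C.g n).filter (fun v => T₀ ⊆ v) := by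
    intro w hw
    obtain ⟨h1, h2⟩ := mem_VFace.1 hw
    refine Finset.mem_filter.2 ⟨nr_v2 P C e he h1, ?_⟩
    have h3 := Finset.map_subset_map (f := e.symm.toEmbedding).2 h2
    rwa [nr_mapmap] at h3
  have hne : ((Verts C.g n).filter (fun v => T₀ ⊆ v)).Nonempty := by
    obtain ⟨w, hw⟩ := hT
    exact ⟨_, hv2 w hw⟩
  have hcard : (VFace P (T₀.map e.toEmbedding)).card =
      ((Verts C.g n).filter (fun v => T₀ ⊆ v)).card :=
    (Finset.card_nbij' (fun v => v.map e.toEmbedding) (fun w => w.map e.symm.toEmbedding)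
      (fun v hv => hv1 v (Finset.mem_coe.1 hv)) (fun w hw => hv2 w (Finset.mem_coe.1 hw))
      (fun v _ => nr_mapmap e v) (fun w _ => nr_mapmap' e w)).symm
  have hsum : ∑ v ∈ VFace P (T₀.map e.toEmbedding), (nraT P (T₀.map e.toEmbedding) v : ℝ) *
      ((nraT P (T₀.map e.toEmbedding) v : ℝ) + 1) =
      ∑ v ∈ (Verts C.g n).filter (fun v => T₀ ⊆ v),
        (eT C.g T₀ v : ℝ) * ((eT C.g T₀ v : ℝ) + 1) := by
    symm
    refine Finset.sum_nbij' (fun v => v.map e.toEmbedding) (fun w => w.map e.symm.toEmbedding)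
      hv1 hv2 (fun v _ => nr_mapmap e v) (fun w _ => nr_mapmap' e w) ?_
    intro v _
    rw [ft_e P C e he]
  have h0 : 8 * ∑ K ∈ (Faces2 C.g n).filter (fun K => T₀ ⊆ K), max (5 - (kF C.g n K : ℝ)) 0 ≤
      4 * ∑ v ∈ (Verts C.g n).filter (fun v => T₀ ⊆ v),
        (eT C.g T₀ v : ℝ) * ((eT C.g T₀ v : ℝ) + 1) :=
    CoxData.fa_sum (D := C.toCoxData) T₀ hn
  refine ⟨?_, ?_, ?_⟩
  · obtain ⟨v, hv, hle⟩ := C.fa_exists hn T₀ hne hm
    refine ⟨v.map e.toEmbedding, hv1 v hv, ?_⟩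
    rw [ft_e P C e he]
    exact hle
  · rw [hcard, hsum]
    exact (C.fa_lt T₀ hne hm).trans_le h0
  · rintro ⟨k, hk⟩
    rw [hcard, hsum]
    exact (C.fa_odd_lt T₀ hne (k := k) (by omega) (by omega)).trans_le h0

/-- at most `n - 1` dihedral angles at a vertex are not right angles -/
theorem nra_lt (hn : 2 ≤ n) (P : CoxeterPolytope n) {v : Finset P.ι} (hv : v ∈ VSets P) :
    nra P v + 1 ≤ n := by
  classical
  obtain ⟨C, e, he⟩ := fl_cone (by omega) P
  have h1 := nr_v2 P C e he hv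
  have h2 : nra P v = eN C.g (v.map e.symm.toEmbedding) := by
    rw [← nr_e P C e he, nr_mapmap']
  obtain ⟨hp, hc⟩ := mem_Verts.1 h1
  have h3 : eN C.g (v.map e.symm.toEmbedding) + 1 ≤ (v.map e.symm.toEmbedding).card :=
    CoxData.eN_lt (D := C.toCoxData) hp
      (Finset.card_pos.1 (lt_of_lt_of_eq (show 0 < n by omega) hc.symm))
  rw [hc, ← h2] at h3
  exact h3

theorem nraT_le (P : CoxeterPolytope n) (T v : Finset P.ι) : nraT P T v ≤ nra P v := by
  classical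
  unfold nraT nra
  refine Finset.card_le_card fun p hp => ?_
  simp only [Finset.mem_filter] at hp ⊢
  exact ⟨hp.1, hp.2.1⟩

/-- the mean number in a face -/
theorem face_mean (hn : 2 ≤ n) (P : CoxeterPolytope n) (T : Finset P.ι)
    (hT : (VFace P T).Nonempty) (hm : T.card + 2 ≤ n) :
    ((n : ℝ) - T.card) * ((n : ℝ) - T.card - 6) * (VFace P T).card <
      4 * n * ∑ v ∈ VFace P T, (nraT P T v : ℝ) := by
  have h := (face_angles hn P T hT hm).2.1
  have hle : ∀ v ∈ VFace P T, (nraT P T v : ℝ) * ((nraT P T v : ℝ) + 1) ≤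
      (n : ℝ) * (nraT P T v : ℝ) := by
    intro v hv
    have h3 : nraT P T v + 1 ≤ n :=
      (Nat.add_le_add_right (nraT_le P T v) 1).trans (nra_lt hn P (mem_VFace.1 hv).1)
    have h4 : (nraT P T v : ℝ) + 1 ≤ n := by exact_mod_cast h3
    have h5 : (0 : ℝ) ≤ nraT P T v := Nat.cast_nonneg _
    nlinarith
  have h6 := Finset.sum_le_sum hle
  rw [← Finset.mul_sum] at h6
  linarith

end MP345
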