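import Mathlib
import Pool.Agent.Work.MP_345ef2_irr.Face3

/-!
# Irreducible factors of the vertex groups, local form: the vertices of a face (MP_345ef2_gt)
-/

set_option autoImplicit false

namespace MP345

open Finset

variable {n : ℕ}

namespace CoxData

variable {D : CoxData n}

theorem cT_le {T v : Finset D.ι} {c : ℕ} (h : ∀ i ∈ v \ T, (D.cmp v i \ T).card ≤ c) :
    2 * (D.cT T v : ℝ) ≤ ((v \ T).card : ℝ) * ((c : ℝ) - 1) := by
  rw [two_cT, ← nsmul_eq_mul, ← Finset.sum_const]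
  refine Finset.sum_le_sum fun i hi => ?_
  have : ((D.cmp v i \ T).card : ℝ) ≤ c := by exact_mod_cast h i hi
  linarith

theorem dvd_cardT {T v : Finset D.ι} {c : ℕ} (h : ∀ i ∈ v \ T, (D.cmp v i \ T).card = c) :
    c ∣ (v \ T).card := by
  classical
  have h1 : (v \ T).card =
      ∑ b ∈ (v \ T).image (D.cmp v), ((v \ T).filter fun j => D.cmp v j = b).card :=
    Finset.card_eq_sum_card_image (D.cmp v) (v \ T)
  rw [h1]
  refine Finset.dvd_sum fun b hb => ?_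
  obtain ⟨i, hi, rfl⟩ := Finset.mem_image.1 hb
  have h2 : (v \ T).filter (fun j => D.cmp v j = D.cmp v i) = D.cmp v i \ T := by
    ext j
    rw [Finset.mem_filter, Finset.mem_sdiff, Finset.mem_sdiff]
    constructor
    · rintro ⟨⟨h3, h3'⟩, h4⟩
      rw [← h4]
      exact ⟨self_cmp h3, h3'⟩
    · rintro ⟨h3, h3'⟩
      exact ⟨⟨(mem_cmp.1 h3).1, h3'⟩, cmp_eq h3⟩
  rw [h2, h i hi]

theorem cT_lt {T v : Finset D.ι} {c : ℕ} (h : ∀ i ∈ v \ T, (D.cmp v i \ T).card ≤ c)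
    (hc : ¬ c ∣ (v \ T).card) :
    2 * (D.cT T v : ℝ) ≤ (((v \ T).card : ℝ) - 1) * ((c : ℝ) - 1) := by
  classical
  obtain ⟨i, hi, hne⟩ : ∃ i ∈ v \ T, (D.cmp v i \ T).card ≠ c := by
    by_contra hcon
    push Not at hcon
    exact hc (dvd_cardT hcon)
  have hlt : (D.cmp v i \ T).card < c := lt_of_le_of_ne (h i hi) hne
  obtain ⟨s, hs⟩ : ∃ s, s = (D.cmp v i \ T).card := ⟨_, rfl⟩
  obtain ⟨hiv, hiT⟩ := Finset.mem_sdiff.1 hi
  have hs1 : 1 ≤ s := by
    rw [hs]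
    exact Finset.card_pos.2 ⟨i, Finset.mem_sdiff.2 ⟨self_cmp hiv, hiT⟩⟩
  have hsub : D.cmp v i \ T ⊆ v \ T :=
    Finset.sdiff_subset_sdiff (fun j hj => (mem_cmp.1 hj).1) le_rfl
  rw [two_cT]
  have h1 : ∑ j ∈ v \ T, ((c : ℝ) - 1 - (((D.cmp v j \ T).card : ℝ) - 1)) ≥
      ∑ j ∈ D.cmp v i \ T, ((c : ℝ) - s) := by
    calc ∑ j ∈ v \ T, ((c : ℝ) - 1 - (((D.cmp v j \ T).card : ℝ) - 1))
        ≥ ∑ j ∈ D.cmp v i \ T, ((c : ℝ) - 1 - (((D.cmp v j \ T).card : ℝ) - 1)) :=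
          Finset.sum_le_sum_of_subset_of_nonneg hsub fun j hj _ => by
            have : ((D.cmp v j \ T).card : ℝ) ≤ c := by exact_mod_cast h j hj
            linarith
      _ = ∑ j ∈ D.cmp v i \ T, ((c : ℝ) - s) := by
          refine Finset.sum_congr rfl fun j hj => ?_
          rw [cmp_eq (Finset.mem_sdiff.1 hj).1, ← hs]
          ring
  rw [Finset.sum_sub_distrib, Finset.sum_const, Finset.sum_const, nsmul_eq_mul, nsmul_eq_mul,
    ← hs] at h1
  have hs' : (1 : ℝ) ≤ s := by exact_mod_cast hs1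
  have hc' : (s : ℝ) + 1 ≤ c := by
    have : s + 1 ≤ c := by omega
    exact_mod_cast this
  nlinarith

/-- **the bound for a face** -/
theorem ir_boundT (T₀ : Finset D.ι) (hn : 2 ≤ n) {m : ℕ} (hm : n = T₀.card + m) (hm2 : 2 ≤ m)
    {c : ℕ} (hT : ((Verts D.g n).filter (fun v => T₀ ⊆ v)).Nonempty)
    (hc : ∀ v ∈ (Verts D.g n).filter (fun v => T₀ ⊆ v), ∀ i ∈ v \ T₀,
      (D.cmp v i \ T₀).card ≤ c)
    (h1 : (m : ℝ) * (m - 6) * ((Verts D.g n).filter (fun v => T₀ ⊆ v)).card <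
      8 * ∑ K ∈ (Faces2 D.g n).filter (fun K => T₀ ⊆ K), max (5 - (kF D.g n K : ℝ)) 0)
    (h2 : ∀ k : ℕ, m = 2 * k + 1 →
      ((m : ℝ) - 1) * (m - 5) * ((Verts D.g n).filter (fun v => T₀ ⊆ v)).card <
      8 * ∑ K ∈ (Faces2 D.g n).filter (fun K => T₀ ⊆ K), max (5 - (kF D.g n K : ℝ)) 0) :
    m ≤ 4 * c := by
  classical
  have hvc : ∀ v ∈ (Verts D.g n).filter (fun v => T₀ ⊆ v), (v \ T₀).card = m := by
    intro v hv
    obtain ⟨hv1, hv2⟩ := Finset.mem_filter.1 hv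
    rw [Finset.card_sdiff_of_subset hv2, (mem_Verts.1 hv1).2]
    omega
  have hsum : ∑ K ∈ (Faces2 D.g n).filter (fun K => T₀ ⊆ K), max (5 - (kF D.g n K : ℝ)) 0 ≤
      ∑ v ∈ (Verts D.g n).filter (fun v => T₀ ⊆ v), (D.cT T₀ v : ℝ) := by
    have h3 : ∑ K ∈ (Faces2 D.g n).filter (fun K => T₀ ⊆ K), max (5 - (kF D.g n K : ℝ)) 0 ≤
        ∑ K ∈ (Faces2 D.g n).filter (fun K => T₀ ⊆ K), (D.cc K : ℝ) :=
      Finset.sum_le_sum fun K hK => ir_face (Finset.mem_filter.1 hK).1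
    have h4 : ∑ K ∈ (Faces2 D.g n).filter (fun K => T₀ ⊆ K), (D.cc K : ℝ) =
        ∑ v ∈ (Verts D.g n).filter (fun v => T₀ ⊆ v), (D.cT T₀ v : ℝ) := by
      exact_mod_cast fa_cc T₀ hn
    linarith
  generalize hW : (Verts D.g n).filter (fun v => T₀ ⊆ v) = W at *
  have hpos : (0 : ℝ) < W.card := by
    exact_mod_cast Finset.card_pos.2 hT
  have hc1 : 1 ≤ c := by
    obtain ⟨v, hv⟩ := hT
    have hvc' := hvc v hv
    obtain ⟨i, hi⟩ : (v \ T₀).Nonempty := Finset.card_pos.1 (by omega)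
    obtain ⟨hiv, hiT⟩ := Finset.mem_sdiff.1 hi
    have h3 : 1 ≤ (D.cmp v i \ T₀).card :=
      Finset.card_pos.2 ⟨i, Finset.mem_sdiff.2 ⟨self_cmp hiv, hiT⟩⟩
    exact h3.trans (hc v hv i hi)
  by_contra hlt
  push Not at hlt
  -- the simple bound
  have h5 : ∑ v ∈ W, 2 * (D.cT T₀ v : ℝ) ≤ ∑ v ∈ W, (m : ℝ) * ((c : ℝ) - 1) := by
    refine Finset.sum_le_sum fun v hv => ?_
    have h6 := cT_le (hc v hv)
    rwa [hvc v hv] at h6
  rw [← Finset.mul_sum, Finset.sum_const, nsmul_eq_mul] at h5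
  have hn4 : m = 4 * c + 1 := by
    by_contra hne
    have h6 : (4 : ℝ) * c + 2 ≤ m := by
      have : 4 * c + 2 ≤ m := by omega
      exact_mod_cast this
    have hn0 : (0 : ℝ) < m := by
      have : 0 < m := by omega
      exact_mod_cast this
    have h7 : (m : ℝ) * (m - 6) * W.card < 4 * m * ((c : ℝ) - 1) * W.card := by
      nlinarith
    have h8 := lt_of_mul_lt_mul_right h7 hpos.le
    nlinarith
  -- the case `m = 4 c + 1`
  have h9 : ∀ v ∈ W, 2 * (D.cT T₀ v : ℝ) ≤ ((m : ℝ) - 1) * ((c : ℝ) - 1) := by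
    intro v hv
    have hvc' := hvc v hv
    by_cases hd : c ∣ (v \ T₀).card
    · have hc2 : c = 1 := by
        rw [hvc', hn4] at hd
        have h10 : c ∣ 1 := (Nat.dvd_add_right (Dvd.intro_left 4 rfl)).1 hd
        exact Nat.dvd_one.1 h10
      have h11 := cT_le (hc v hv)
      rw [hc2] at h11 ⊢
      push_cast at h11 ⊢
      linarith
    · have h11 := cT_lt (hc v hv) hd
      rwa [hvc'] at h11
  have h12 := Finset.sum_le_sum h9
  rw [← Finset.mul_sum, Finset.sum_const, nsmul_eq_mul] at h12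
  have h13 := h2 (2 * c) (by omega)
  have hn' : (m : ℝ) = 4 * c + 1 := by rw [hn4]; push_cast; ring
  have hc1' : (1 : ℝ) ≤ c := by exact_mod_cast hc1
  have h14 : ((m : ℝ) - 1) * (m - 5) * W.card <
      4 * (((m : ℝ) - 1) * ((c : ℝ) - 1)) * W.card := by
    nlinarith
  have h15 := lt_of_mul_lt_mul_right h14 hpos.le
  rw [hn'] at h15
  nlinarith

end CoxData

theorem loc_card {α β : Type} [DecidableEq α] (e : α ≃ β) (Q T : Finset α) :
    Nat.card {k // k ∈ Q.map e.toEmbedding ∧ k ∉ T.map e.toEmbedding} = (Q \ T).card := by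
  have h7 : ∀ k : β, (k ∈ Q.map e.toEmbedding ∧ k ∉ T.map e.toEmbedding) ↔
      e.symm k ∈ Q \ T := by
    intro k
    rw [Finset.mem_sdiff, Finset.mem_map_equiv, Finset.mem_map_equiv]
  have h9 : {k // k ∈ Q.map e.toEmbedding ∧ k ∉ T.map e.toEmbedding} ≃ {a // a ∈ Q \ T} :=
    e.symm.subtypeEquiv h7
  rw [Nat.card_congr h9, Nat.card_eq_fintype_card, Fintype.card_coe]

/-- **A vertex of a face of a compact Coxeter polytope whose group has an irreducible factor to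
which at least `m / 4` facets not containing the face belong**, `m` the dimension of the face. -/
theorem exists_large_factor_face (hn : 2 ≤ n) (P : CoxeterPolytope n) (T : Finset P.ι)
    (hT : ∃ y ∈ Hyp n, (∀ k, lor y (P.u k) ≤ 0) ∧ Nat.card {k // lor y (P.u k) = 0} = n ∧
      ∀ k ∈ T, lor y (P.u k) = 0) (hm : T.card + 2 ≤ n) :
    ∃ x ∈ Hyp n, (∀ k, lor x (P.u k) ≤ 0) ∧ Nat.card {k // lor x (P.u k) = 0} = n ∧
      (∀ k ∈ T, lor x (P.u k) = 0) ∧
      ∃ S : Finset P.ι, (∀ i ∈ S, lor x (P.u i) = 0) ∧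
        (∀ i ∈ S, ∀ j ∈ S, Joined P S i j) ∧ n ≤ T.card + 4 * Nat.card {i // i ∈ S ∧ i ∉ T} := by
  classical
  obtain ⟨C, e, he⟩ := fl_cone (by omega) P
  obtain ⟨T₀, rfl⟩ : ∃ T₀ : Finset C.ι, T = T₀.map e.toEmbedding :=
    ⟨T.map e.symm.toEmbedding, (nr_mapmap' e T).symm⟩
  rw [Finset.card_map] at hm ⊢
  have hne : ((Verts C.g n).filter (fun v => T₀ ⊆ v)).Nonempty := by
    obtain ⟨y, hyH, hy1, hy2, hy3⟩ := hT
    have hw : (Finset.univ.filter fun k => lor y (P.u k) = 0) ∈ VSets P := by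
      rw [mem_VSets]
      refine ⟨?_, y, hyH, hy1, fun k => ?_⟩
      · rw [Nat.card_eq_fintype_card, Fintype.card_subtype] at hy2
        exact hy2
      · simp
    refine ⟨_, Finset.mem_filter.2 ⟨nr_v2 P C e he hw, ?_⟩⟩
    intro i hi
    refine Finset.mem_map.2 ⟨e i, ?_, by simp⟩
    simp only [Finset.mem_filter, Finset.mem_univ, true_and]
    exact hy3 _ (Finset.mem_map_of_mem _ hi)
  obtain ⟨m, hmn⟩ : ∃ m, n = T₀.card + m := ⟨n - T₀.card, by omega⟩
  have hr : (n : ℝ) - T₀.card = m := by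
    have : (n : ℝ) = T₀.card + m := by exact_mod_cast hmn
    linarith
  obtain ⟨v, hv, i, hi, hle⟩ : ∃ v ∈ (Verts C.g n).filter (fun v => T₀ ⊆ v), ∃ i ∈ v \ T₀,
      m ≤ 4 * (CoxData.cmp (D := C.toCoxData) v i \ T₀).card := by
    by_contra hcon
    push Not at hcon
    have h1 := C.fa_lt T₀ hne hm
    rw [hr] at h1
    have h3 : m ≤ 4 * ((m - 1) / 4) := CoxData.ir_boundT (D := C.toCoxData) T₀ hn hmn
      (by omega) hne (fun v hv i hi => by
        have := hcon v hv i hi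
        omega) h1 (fun k hk => by
        have h2 := C.fa_odd_lt T₀ hne (k := k) (by omega) (by omega)
        rw [hr] at h2
        exact h2)
    omega
  obtain ⟨hvV, hTv⟩ := Finset.mem_filter.1 hv
  obtain ⟨hvp, hvc⟩ := mem_Verts.1 hvV
  obtain ⟨x, hxH, h1, h2⟩ := fl_point (by omega) P C e he (S := v) hvp
  have hx : ∀ k : P.ι, lor x (P.u k) = 0 ↔ e.symm k ∈ v := by
    intro k
    constructor
    · intro h
      by_contra hk
      have := h2 _ hk
      rw [e.apply_symm_apply] at this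
      linarith
    · intro h
      have := h1 _ h
      rwa [e.apply_symm_apply] at this
  have hC : ∀ {T : Finset C.ι} {a b : C.ι}, CoxData.Cn (D := C.toCoxData) T a b →
      Joined P (T.map e.toEmbedding : Finset P.ι) (e a) (e b) := by
    intro T a b h
    unfold CoxData.Cn at h
    induction h with
    | refl => exact Relation.ReflTransGen.refl
    | @tail y z hy hyz ih =>
      refine Relation.ReflTransGen.tail ih ⟨?_, ?_, ?_⟩
      · exact Finset.mem_coe.2 (Finset.mem_map.2 ⟨y, hyz.1, rfl⟩)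
      · exact Finset.mem_coe.2 (Finset.mem_map.2 ⟨z, hyz.2.1, rfl⟩)
      · rw [← he, ← he]
        exact hyz.2.2.2
  refine ⟨x, hxH, ?_, ?_, ?_, (CoxData.cmp (D := C.toCoxData) v i).map e.toEmbedding, ?_, ?_, ?_⟩
  · intro k
    by_cases hk : e.symm k ∈ v
    · exact ((hx k).2 hk).le
    · have := h2 _ hk
      rw [e.apply_symm_apply] at this
      exact this.le
  · have h5 : {k // lor x (P.u k) = 0} ≃ {a // a ∈ v} := e.symm.subtypeEquiv hx
    rw [Nat.card_congr h5, Nat.card_eq_fintype_card, Fintype.card_coe]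
    exact hvc
  · intro k hk
    obtain ⟨j, hj, rfl⟩ := Finset.mem_map.1 hk
    exact h1 _ (hTv hj)
  · intro k hk
    obtain ⟨j, hj, rfl⟩ := Finset.mem_map.1 hk
    exact h1 _ (CoxData.mem_cmp.1 hj).1
  · intro a ha b hb
    obtain ⟨a', ha', rfl⟩ := Finset.mem_map.1 ha
    obtain ⟨b', hb', rfl⟩ := Finset.mem_map.1 hb
    have c1 := CoxData.cn_cmp (CoxData.mem_cmp.1 ha').2
    have c2 := CoxData.cn_cmp (CoxData.mem_cmp.1 hb').2
    exact hC (c1.symm.trans c2)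
  · exact hmn.le.trans (Nat.add_le_add_left (hle.trans (Nat.mul_le_mul_left 4
      (loc_card e (CoxData.cmp (D := C.toCoxData) v i) T₀).ge)) _)

end MP345
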