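import Mathlib
import Pool.Agent.Work.MP_345ef2_irr.Irr2

/-!
# Irreducible factors of the vertex diagrams: the average form (MP_345ef2_gt)
-/

set_option autoImplicit false

namespace MP345

open Finset

variable {n : ℕ}

namespace CoxData

variable {D : CoxData n}

theorem avg_core (hn : 2 ≤ n) {b : ℝ}
    (h1 : b * (Verts D.g n).card <
      8 * ∑ K ∈ Faces2 D.g n, max (5 - (kF D.g n K : ℝ)) 0) :
    (b + 4 * n) * (Verts D.g n).card <
      4 * ∑ v ∈ Verts D.g n, ∑ i ∈ v, ((D.cmp v i).card : ℝ) := by
  classical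
  have hsum : ∑ K ∈ Faces2 D.g n, max (5 - (kF D.g n K : ℝ)) 0 ≤
      ∑ v ∈ Verts D.g n, (D.cN v : ℝ) := by
    have h3 : ∑ K ∈ Faces2 D.g n, max (5 - (kF D.g n K : ℝ)) 0 ≤
        ∑ K ∈ Faces2 D.g n, (D.cc K : ℝ) := Finset.sum_le_sum fun K hK => ir_face hK
    have h4 : ∑ K ∈ Faces2 D.g n, (D.cc K : ℝ) = ∑ v ∈ Verts D.g n, (D.cN v : ℝ) := by
      exact_mod_cast D.sum_cc hn
    linarith
  have h2 : ∑ v ∈ Verts D.g n, ∑ i ∈ v, ((D.cmp v i).card : ℝ) =
      2 * ∑ v ∈ Verts D.g n, (D.cN v : ℝ) + n * (Verts D.g n).card := by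
    rw [Finset.mul_sum]
    have h5 : (n : ℝ) * (Verts D.g n).card = ∑ v ∈ Verts D.g n, (n : ℝ) := by
      rw [Finset.sum_const, nsmul_eq_mul, mul_comm]
    rw [h5, ← Finset.sum_add_distrib]
    refine Finset.sum_congr rfl fun v hv => ?_
    rw [two_cN, Finset.sum_sub_distrib, Finset.sum_const, nsmul_eq_mul, (mem_Verts.1 hv).2]
    ring
  rw [h2]
  linarith

end CoxData

/-- `v` is a vertex of `P`, given by the set of the `n` facets through it -/
def IsVertex (P : CoxeterPolytope n) (v : Finset P.ι) : Prop :=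
  v.card = n ∧ ∃ x ∈ Hyp n, (∀ k, lor x (P.u k) ≤ 0) ∧ ∀ k, (lor x (P.u k) = 0 ↔ k ∈ v)

open scoped Classical in
/-- the vertices of `P` -/
noncomputable def vertices (P : CoxeterPolytope n) : Finset (Finset P.ι) :=
  Finset.univ.filter (IsVertex P)

open scoped Classical in
/-- the component of the facet `i` in the Coxeter diagram of the facets in `v` -/
noncomputable def component (P : CoxeterPolytope n) (v : Finset P.ι) (i : P.ι) : Finset P.ι :=
  v.filter (Joined P v i)

section transfer

variable {P : CoxeterPolytope n} {C : Cone n} {e : C.ι ≃ P.ι} (he : ∀ i, C.u i = P.u (e i))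

include he

theorem av_joined {v : Finset C.ι} {a b : C.ι} :
    Joined P (v.map e.toEmbedding : Finset P.ι) (e a) (e b) ↔
      CoxData.Cn (D := C.toCoxData) v a b := by
  classical
  constructor
  · intro h
    have key : ∀ y : P.ι, Joined P (v.map e.toEmbedding : Finset P.ι) (e a) y →
        CoxData.Cn (D := C.toCoxData) v a (e.symm y) := by
      intro y hy
      unfold Joined at hy
      induction hy with
      | refl =>
        rw [e.symm_apply_apply]
        exact Relation.ReflTransGen.refl
      | @tail y z hy hyz ih =>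
        obtain ⟨h1, h2, h3⟩ := hyz
        obtain ⟨y', hy', rfl⟩ := Finset.mem_map.1 (Finset.mem_coe.1 h1)
        obtain ⟨z', hz', rfl⟩ := Finset.mem_map.1 (Finset.mem_coe.1 h2)
        change CoxData.Cn (D := C.toCoxData) v a (e.symm (e y')) at ih
        show CoxData.Cn (D := C.toCoxData) v a (e.symm (e z'))
        rw [e.symm_apply_apply] at ih ⊢
        by_cases hyz' : y' = z'
        · rw [← hyz']; exact ih
        · refine Relation.ReflTransGen.tail ih ⟨hy', hz', hyz', ?_⟩
          change lor (P.u (e y')) (P.u (e z')) ≠ 0 at h3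
          rw [← he, ← he] at h3
          exact h3
    have := key (e b) h
    rwa [e.symm_apply_apply] at this
  · intro h
    unfold CoxData.Cn at h
    induction h with
    | refl => exact Relation.ReflTransGen.refl
    | @tail y z hy hyz ih =>
      refine Relation.ReflTransGen.tail ih ⟨?_, ?_, ?_⟩
      · exact Finset.mem_coe.2 (Finset.mem_map.2 ⟨y, hyz.1, rfl⟩)
      · exact Finset.mem_coe.2 (Finset.mem_map.2 ⟨z, hyz.2.1, rfl⟩)
      · rw [← he, ← he]
        exact hyz.2.2.2

theorem av_component {v : Finset C.ι} {i : C.ι} :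
    component P (v.map e.toEmbedding) (e i) =
      (CoxData.cmp (D := C.toCoxData) v i).map e.toEmbedding := by
  classical
  ext k
  unfold component
  rw [Finset.mem_filter, Finset.mem_map, Finset.mem_map]
  constructor
  · rintro ⟨⟨j, hj, rfl⟩, h⟩
    exact ⟨j, CoxData.mem_cmp.2 ⟨hj, (av_joined he).1 h⟩, rfl⟩
  · rintro ⟨j, hj, rfl⟩
    obtain ⟨h1, h2⟩ := CoxData.mem_cmp.1 hj
    exact ⟨⟨j, h1, rfl⟩, (av_joined he).2 h2⟩

theorem av_vertex (hn : 1 ≤ n) {v : Finset C.ι} :
    IsVertex P (v.map e.toEmbedding) ↔ v ∈ Verts C.g n := by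
  classical
  rw [mem_Verts]
  constructor
  · rintro ⟨h1, x, hxH, h2, h3⟩
    rw [Finset.card_map] at h1
    refine ⟨C.pd_of_tight (x := x) (by rw [hxH.1]; norm_num) fun i hi => ?_, h1⟩
    rw [he]
    exact (h3 _).2 (Finset.mem_map.2 ⟨i, hi, rfl⟩)
  · rintro ⟨h1, h2⟩
    obtain ⟨x, hxH, h3, h4⟩ := fl_point hn P C e he (S := v) h1
    have hx : ∀ k : P.ι, lor x (P.u k) = 0 ↔ e.symm k ∈ v := by
      intro k
      constructor
      · intro h
        by_contra hk
        have := h4 _ hk
        rw [e.apply_symm_apply] at this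
        linarith
      · intro h
        have := h3 _ h
        rwa [e.apply_symm_apply] at this
    refine ⟨by rw [Finset.card_map]; exact h2, x, hxH, fun k => ?_, fun k => ?_⟩
    · by_cases hk : e.symm k ∈ v
      · exact ((hx k).2 hk).le
      · have := h4 _ hk
        rw [e.apply_symm_apply] at this
        exact this.le
    · rw [hx, Finset.mem_map]
      constructor
      · intro h
        exact ⟨_, h, e.apply_symm_apply k⟩
      · rintro ⟨j, hj, rfl⟩
        change e.symm (e j) ∈ v
        rw [e.symm_apply_apply]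
        exact hj

theorem av_sum (hn : 1 ≤ n) (f : Finset P.ι → ℝ) :
    ∑ v ∈ vertices P, f v = ∑ v ∈ Verts C.g n, f (v.map e.toEmbedding) := by
  classical
  symm
  refine Finset.sum_bij (fun v _ => v.map e.toEmbedding) ?_ ?_ ?_ ?_
  · intro v hv
    unfold vertices
    rw [Finset.mem_filter]
    exact ⟨Finset.mem_univ _, (av_vertex he hn).2 hv⟩
  · intro v _ w _ h
    exact Finset.map_injective _ h
  · intro w hw
    unfold vertices at hw
    rw [Finset.mem_filter] at hw
    have h1 : (w.map e.symm.toEmbedding).map e.toEmbedding = w := by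
      rw [Finset.map_map]
      ext k
      simp
    exact ⟨w.map e.symm.toEmbedding, (av_vertex he hn).1 (by rw [h1]; exact hw.2), h1⟩
  · intro v _
    rfl

end transfer

/-- **The average size of the components of the vertex diagrams.** -/
theorem average_component (hn : 2 ≤ n) (P : CoxeterPolytope n) :
    0 < (vertices P).card ∧
    (n : ℝ) * (n - 2) * (vertices P).card <
      4 * ∑ v ∈ vertices P, ∑ i ∈ v, ((component P v i).card : ℝ) ∧
    (Odd n → ((n : ℝ) * (n - 2) + 5) * (vertices P).card <
      4 * ∑ v ∈ vertices P, ∑ i ∈ v, ((component P v i).card : ℝ)) := by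
  classical
  obtain ⟨C, e, he⟩ := fl_cone (by omega) P
  have hS : ∑ v ∈ vertices P, ∑ i ∈ v, ((component P v i).card : ℝ) =
      ∑ v ∈ Verts C.g n, ∑ i ∈ v, ((CoxData.cmp (D := C.toCoxData) v i).card : ℝ) := by
    rw [av_sum he (by omega)]
    refine Finset.sum_congr rfl fun v _ => ?_
    rw [Finset.sum_map]
    refine Finset.sum_congr rfl fun i _ => ?_
    have h1 := av_component he (v := v) (i := i)
    change ((component P (v.map e.toEmbedding) (e i)).card : ℝ) = _
    rw [h1, Finset.card_map]
    rfl
  have hV : ((vertices P).card : ℝ) = (Verts C.g n).card := by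
    have h1 := av_sum he (by omega) (fun _ => (1 : ℝ))
    rw [Finset.sum_const, Finset.sum_const, nsmul_eq_mul, nsmul_eq_mul, mul_one, mul_one] at h1
    exact h1
  have hpos : (0 : ℝ) < (vertices P).card := by
    rw [hV]
    exact_mod_cast Finset.card_pos.2 C.verts_nonempty
  refine ⟨by exact_mod_cast hpos, ?_, ?_⟩
  · rw [hS, hV]
    have h1 := CoxData.avg_core (D := C.toCoxData) hn (C.count_lt hn)
    have h2 : (n : ℝ) * (n - 6) + 4 * n = n * (n - 2) := by ring
    rw [h2] at h1
    exact h1
  · rintro ⟨m, hm⟩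
    rw [hS, hV]
    have h1 := CoxData.avg_core (D := C.toCoxData) hn (C.count_odd_lt hm (by omega))
    have h2 : ((n : ℝ) - 1) * (n - 5) + 4 * n = n * (n - 2) + 5 := by ring
    rw [h2] at h1
    exact h1

theorem component_sub (P : CoxeterPolytope n) (v : Finset P.ι) (i : P.ι) : component P v i ⊆ v := by
  classical
  exact Finset.filter_subset _ _

/-- **Many vertices lie on a large component**: for every `k < n` the proportion of the vertices
with a component of more than `k` facets is larger than `(n - 2 - 4 k) / (4 (n - k))`. -/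
theorem many_vertices (hn : 2 ≤ n) (P : CoxeterPolytope n) (k : ℕ) (hk : k < n)
    (G : Finset (Finset P.ι))
    (hG : ∀ v, v ∈ G ↔ v ∈ vertices P ∧ ∃ i ∈ v, k < (component P v i).card) :
    ((n : ℝ) - 2 - 4 * k) * (vertices P).card < 4 * ((n : ℝ) - k) * G.card := by
  classical
  obtain ⟨-, h1, -⟩ := average_component hn P
  have hGV : G ⊆ vertices P := fun v hv => ((hG v).1 hv).1
  have hvc : ∀ v ∈ vertices P, v.card = n := by
    intro v hv
    unfold vertices at hv
    exact (Finset.mem_filter.1 hv).2.1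
  have h2 : ∑ v ∈ vertices P, ∑ i ∈ v, ((component P v i).card : ℝ) ≤
      G.card * ((n : ℝ) * n) + ((vertices P).card - G.card : ℝ) * (n * k) := by
    rw [← Finset.sum_sdiff hGV, add_comm]
    refine add_le_add ?_ ?_
    · rw [← nsmul_eq_mul, ← Finset.sum_const]
      refine Finset.sum_le_sum fun v hv => ?_
      have h3 := hvc v (hGV hv)
      calc ∑ i ∈ v, ((component P v i).card : ℝ) ≤ ∑ i ∈ v, (n : ℝ) := by
            refine Finset.sum_le_sum fun i _ => ?_
            have h4 := Finset.card_le_card (component_sub P v i)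
            rw [h3] at h4
            exact_mod_cast h4
        _ = (n : ℝ) * n := by rw [Finset.sum_const, nsmul_eq_mul, h3]
    · have h5 : ((vertices P).card - G.card : ℝ) = ((vertices P \ G).card : ℝ) := by
        rw [Finset.card_sdiff_of_subset hGV, Nat.cast_sub (Finset.card_le_card hGV)]
      rw [h5, ← nsmul_eq_mul, ← Finset.sum_const]
      refine Finset.sum_le_sum fun v hv => ?_
      have hv1 := (Finset.mem_sdiff.1 hv).1
      have hv2 := (Finset.mem_sdiff.1 hv).2
      have h3 := hvc v hv1
      calc ∑ i ∈ v, ((component P v i).card : ℝ) ≤ ∑ i ∈ v, (k : ℝ) := by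
            refine Finset.sum_le_sum fun i hi => ?_
            have h4 : (component P v i).card ≤ k := by
              by_contra hcon
              exact hv2 ((hG v).2 ⟨hv1, i, hi, not_le.1 hcon⟩)
            exact_mod_cast h4
        _ = (n : ℝ) * k := by rw [Finset.sum_const, nsmul_eq_mul, h3]
  have hn0 : (0 : ℝ) < n := by
    have : 0 < n := by omega
    exact_mod_cast this
  have h6 : (n : ℝ) * (((n : ℝ) - 2 - 4 * k) * (vertices P).card) <
      n * (4 * ((n : ℝ) - k) * G.card) := by nlinarith
  exact lt_of_mul_lt_mul_left h6 hn0.le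

end MP345
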